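import Mathlib

/-! The numerical values of the exponents. -/

set_option autoImplicit false

namespace Pool.Agent.U985.FM

theorem exp_neg_lt {x c : ℝ} (hc : 0 < c) (hx : 0 ≤ x) (n : ℕ)
    (h : 1 / c < ∑ i ∈ Finset.range n, x ^ i / (i.factorial : ℝ)) : Real.exp (-x) < c := by
  have h1 := h.trans_le (Real.sum_le_exp_of_nonneg hx n)
  rw [Real.exp_neg, inv_lt_comm₀ (Real.exp_pos _) hc, ← one_div]
  exact h1

theorem num1 : Real.exp (-1 / (1 + 2 * (8 / (3 * Real.pi)))) < 0.6904 := by
  have hpi := Real.pi_gt_d4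
  have h0 : (0.3706 : ℝ) ≤ 1 / (1 + 2 * (8 / (3 * Real.pi))) := by
    rw [le_div_iff₀ (by positivity)]
    have h1 : 8 / (3 * Real.pi) ≤ 0.84886 := by
      rw [div_le_iff₀ (by positivity)]
      nlinarith
    nlinarith
  calc Real.exp (-1 / (1 + 2 * (8 / (3 * Real.pi)))) ≤ Real.exp (-(0.3706)) := by
        refine Real.exp_le_exp.2 ?_
        rw [neg_div]
        linarith
    _ < 0.6904 := exp_neg_lt (by norm_num) (by norm_num) 6 (by
        norm_num [Finset.sum_range_succ, Nat.factorial])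

theorem num2 : Real.exp (-1 / (1 + 2 * (2 / Real.pi))) < 0.6442 := by
  have hpi := Real.pi_gt_d4
  have h0 : (0.4398 : ℝ) ≤ 1 / (1 + 2 * (2 / Real.pi)) := by
    rw [le_div_iff₀ (by positivity)]
    have h1 : 2 / Real.pi ≤ 0.63664 := by
      rw [div_le_iff₀ (by positivity)]
      nlinarith
    nlinarith
  calc Real.exp (-1 / (1 + 2 * (2 / Real.pi))) ≤ Real.exp (-(0.4398)) := by
        refine Real.exp_le_exp.2 ?_
        rw [neg_div]
        linarith
    _ < 0.6442 := exp_neg_lt (by norm_num) (by norm_num) 7 (by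
        norm_num [Finset.sum_range_succ, Nat.factorial])

end Pool.Agent.U985.FM
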