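import Pool.Agent.U985.FM.Dec

/-! The bound for the sum over the integers composed of primes of `D`. -/

set_option autoImplicit false

namespace Pool.Agent.U985.FM

open Filter Topology
open Pool.Agent.U985.UT (KK KK_pos)

/-- the local constant -/
noncomputable def C1 : ℝ := ∑' k : ℕ, ((k : ℝ) + 1) ^ 3 * Real.exp (-(Real.log 2 / 2)) ^ k

theorem c1_summ : Summable fun k : ℕ => ((k : ℝ) + 1) ^ 3 * Real.exp (-(Real.log 2 / 2)) ^ k := by
  set r : ℝ := Real.exp (-(Real.log 2 / 2)) with hr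
  have hr0 : 0 < r := Real.exp_pos _
  have hr1 : r < 1 := by
    rw [hr, Real.exp_lt_one_iff]
    have := Real.log_pos (show (1 : ℝ) < 2 by norm_num)
    linarith
  have h1 : Summable fun n : ℕ => (n : ℝ) ^ 3 * r ^ n :=
    summable_pow_mul_geometric_of_norm_lt_one 3 (by rw [Real.norm_eq_abs, abs_of_pos hr0]; exact hr1)
  have h2 := ((summable_nat_add_iff 1).2 h1).mul_left r⁻¹
  refine h2.congr fun k => ?_
  push_cast
  rw [pow_succ r k]
  field_simp

theorem one_le_C1 : 1 ≤ C1 := by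
  have := c1_summ.le_tsum 0 fun k _ => by positivity
  simpa [C1] using this

/-- the weights -/
noncomputable def fw (m : ℕ) : ℝ := dd m * Real.exp (-(Real.log m / 2))

theorem fw_one : fw 1 = 1 := by simp [fw, dd]

theorem fw_mul {m n : ℕ} (h : m.Coprime n) : fw (m * n) = fw m * fw n := by
  rcases Nat.eq_zero_or_pos m with rfl | hm
  · have : n = 1 := by simpa using h
    rw [this, mul_one, fw_one, mul_one]
  rcases Nat.eq_zero_or_pos n with rfl | hn
  · have : m = 1 := by simpa using h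
    rw [this, one_mul, fw_one, one_mul]
  unfold fw
  rw [dd_mul h]
  push_cast
  rw [Real.log_mul (by exact_mod_cast hm.ne') (by exact_mod_cast hn.ne'), add_div, neg_add, Real.exp_add]
  ring

theorem fw_nonneg (m : ℕ) : 0 ≤ fw m := mul_nonneg (dd_nonneg m) (Real.exp_pos _).le

theorem fw_prime_pow {p : ℕ} (hp : p.Prime) (k : ℕ) :
    fw (p ^ k) = ((k : ℝ) + 1) ^ 3 * Real.exp (-(Real.log p / 2)) ^ k := by
  unfold fw
  rw [dd_prime_pow hp]
  push_cast
  rw [Real.log_pow, ← Real.exp_nat_mul]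
  congr 2
  ring

theorem fw_prime_le {p : ℕ} (hp : p.Prime) (k : ℕ) :
    fw (p ^ k) ≤ ((k : ℝ) + 1) ^ 3 * Real.exp (-(Real.log 2 / 2)) ^ k := by
  rw [fw_prime_pow hp]
  have h1 : Real.log 2 ≤ Real.log p := Real.log_le_log (by norm_num) (by exact_mod_cast hp.two_le)
  have h2 : Real.exp (-(Real.log p / 2)) ≤ Real.exp (-(Real.log 2 / 2)) := Real.exp_le_exp.2 (by linarith)
  gcongr

theorem fw_summ {p : ℕ} (hp : p.Prime) : Summable fun k : ℕ => ‖fw (p ^ k)‖ := by
  refine Summable.of_nonneg_of_le (fun k => norm_nonneg _) (fun k => ?_) c1_summ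
  rw [Real.norm_eq_abs, abs_of_nonneg (fw_nonneg _)]
  exact fw_prime_le hp k

theorem sum_u (s : Finset ℕ) : Summable (fun u : Nat.factoredNumbers s => fw u) ∧
    ∑' u : Nat.factoredNumbers s, fw u ≤ C1 ^ s.card := by
  obtain ⟨h1, h2⟩ := EulerProduct.summable_and_hasSum_factoredNumbers_prod_filter_prime_tsum
    (f := fw) fw_one (fun h => fw_mul h) (fun hp => fw_summ hp) s
  refine ⟨h2.summable, ?_⟩
  rw [h2.tsum_eq]
  calc ∏ p ∈ s with p.Prime, ∑' n : ℕ, fw (p ^ n) ≤ ∏ p ∈ s with p.Prime, C1 := by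
        refine Finset.prod_le_prod (fun p _ => tsum_nonneg fun n => fw_nonneg _) fun p hp => ?_
        have hp' := (Finset.mem_filter.1 hp).2
        exact (fw_summ hp').of_norm.tsum_le_tsum (fun k => fw_prime_le hp' k) c1_summ
    _ = C1 ^ (s.filter Nat.Prime).card := by rw [Finset.prod_const]
    _ ≤ C1 ^ s.card := pow_le_pow_right₀ one_le_C1 (Finset.card_filter_le _ _)

theorem pow_omega {c ε : ℝ} (hc : 1 ≤ c) (hε : 0 < ε) :
    ∃ A : ℝ, 1 ≤ A ∧ ∀ D : ℕ, D ≠ 0 → c ^ D.primeFactors.card ≤ A * (D : ℝ) ^ ε := by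
  set Y : ℝ := c ^ ε⁻¹ with hY
  have hc0 : 0 < c := by linarith
  have hYc : Y ^ ε = c := by
    rw [hY, ← Real.rpow_mul hc0.le, inv_mul_cancel₀ hε.ne', Real.rpow_one]
  have hY0 : 0 ≤ Y := by positivity
  refine ⟨c ^ (⌊Y⌋₊ + 1), one_le_pow₀ hc, fun D hD => ?_⟩
  have h1 : c ^ D.primeFactors.card = ∏ p ∈ D.primeFactors, c := by rw [Finset.prod_const]
  have h2 : ∏ p ∈ D.primeFactors, c ≤ ∏ p ∈ D.primeFactors, ((if (p : ℝ) ≤ Y then c else 1) * (p : ℝ) ^ ε) := by
    refine Finset.prod_le_prod (fun p _ => hc0.le) fun p hp => ?_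
    have hp1 : (1 : ℝ) ≤ p := by exact_mod_cast (Nat.prime_of_mem_primeFactors hp).one_lt.le
    split_ifs with h
    · have := Real.one_le_rpow hp1 hε.le
      nlinarith
    · rw [one_mul, ← hYc]
      exact Real.rpow_le_rpow hY0 (not_le.1 h).le hε.le
  have h3 : ∏ p ∈ D.primeFactors, (if (p : ℝ) ≤ Y then c else 1) ≤ c ^ (⌊Y⌋₊ + 1) := by
    rw [Finset.prod_ite, Finset.prod_const_one, mul_one, Finset.prod_const]
    refine pow_le_pow_right₀ hc ?_
    calc (D.primeFactors.filter fun p : ℕ => (p : ℝ) ≤ Y).card ≤ (Finset.range (⌊Y⌋₊ + 1)).card := by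
          refine Finset.card_le_card fun p hp => ?_
          rw [Finset.mem_filter] at hp
          rw [Finset.mem_range, Nat.lt_succ_iff]
          exact Nat.le_floor hp.2
      _ = _ := Finset.card_range _
  have h4 : ∏ p ∈ D.primeFactors, (p : ℝ) ^ ε ≤ (D : ℝ) ^ ε := by
    rw [Real.finsetProd_rpow _ _ (fun p _ => by positivity)]
    refine Real.rpow_le_rpow (by positivity) ?_ hε.le
    have h5 : ((∏ p ∈ D.primeFactors, p : ℕ) : ℝ) ≤ D := by
      exact_mod_cast Nat.le_of_dvd (Nat.pos_of_ne_zero hD) (Nat.prod_primeFactors_dvd D)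
    rwa [Nat.cast_prod] at h5
  rw [h1]
  refine h2.trans ?_
  rw [Finset.prod_mul_distrib]
  refine mul_le_mul h3 h4 (Finset.prod_nonneg fun p _ => by positivity) (by positivity)

/-- **the bound for the extended sum** -/
theorem dec_bound {ε a : ℝ} (hε : 0 < ε) (ha : -(1 / 2) ≤ a) : ∃ A : ℝ, 1 ≤ A ∧
    ∀ (N₀ D : ℕ), N₀ ≠ 0 → D ≠ 0 → N₀ ∣ D → ∀ x y : ℕ → ℝ, (∀ p, |x p| ≤ 2) → (∀ p, |y p| ≤ 2) →
    ∀ Q : ℝ, 0 ≤ Q → (∀ v : ℝ, |SK (bs D x y) v| ≤ Q * Real.exp (a * v)) →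
    ∀ z : ℝ, |SK (bs N₀ (xp D x y) y) z| ≤ A * (D : ℝ) ^ ε * Q * Real.exp (a * z) := by
  obtain ⟨A, hA, hA'⟩ := pow_omega one_le_C1 hε
  refine ⟨A, hA, fun N₀ D hN hD hdiv x y hx hy Q hQ0 hQ z => ?_⟩
  have h1 := dec hN hD hdiv hx hy z
  obtain ⟨h2, h3⟩ := sum_u (sD N₀ D)
  have hb : ∀ u : Nat.factoredNumbers (sD N₀ D), ‖rs y y u * Real.exp (-Real.log (u : ℕ)) *
      SK (bs D x y) (z - Real.log (u : ℕ))‖ ≤ fw u * (Q * Real.exp (a * z)) := by
    rintro ⟨u, hu⟩
    simp only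
    have hu0 : (1 : ℝ) ≤ u := by exact_mod_cast Nat.pos_of_ne_zero (Nat.ne_zero_of_mem_factoredNumbers hu)
    have hl := Real.log_nonneg hu0
    rw [norm_mul, norm_mul, Real.norm_eq_abs, Real.norm_eq_abs, Real.norm_eq_abs, Real.abs_exp]
    have h4 := abs_rs_le hy hy u
    have h5 := hQ (z - Real.log u)
    have hd0 := dd_nonneg u
    calc |rs y y u| * Real.exp (-Real.log u) * |SK (bs D x y) (z - Real.log u)| ≤
          dd u * Real.exp (-Real.log u) * (Q * Real.exp (a * (z - Real.log u))) := by gcongr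
      _ = dd u * (Real.exp (-Real.log u) * Real.exp (a * (z - Real.log u))) * Q := by ring
      _ ≤ dd u * (Real.exp (-(Real.log u / 2)) * Real.exp (a * z)) * Q := by
          have h6 : Real.exp (-Real.log u) * Real.exp (a * (z - Real.log u)) ≤
              Real.exp (-(Real.log u / 2)) * Real.exp (a * z) := by
            rw [← Real.exp_add, ← Real.exp_add]
            refine Real.exp_le_exp.2 ?_
            nlinarith
          gcongr
      _ = fw u * (Q * Real.exp (a * z)) := by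
          unfold fw
          ring
  have h4 := tsum_of_norm_bounded (h2.mul_right (Q * Real.exp (a * z))).hasSum hb
  rw [h1.tsum_eq, Real.norm_eq_abs, tsum_mul_right] at h4
  refine h4.trans ?_
  have hcard : (sD N₀ D).card ≤ D.primeFactors.card := Finset.card_le_card Finset.sdiff_subset
  have h5 : ∑' u : Nat.factoredNumbers (sD N₀ D), fw u ≤ A * (D : ℝ) ^ ε :=
    h3.trans ((pow_le_pow_right₀ one_le_C1 hcard).trans (hA' D hD))
  have h6 : 0 ≤ Q * Real.exp (a * z) := mul_nonneg hQ0 (Real.exp_pos _).le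
  calc _ ≤ (A * (D : ℝ) ^ ε) * (Q * Real.exp (a * z)) := mul_le_mul_of_nonneg_right h5 h6
    _ = _ := by ring

end Pool.Agent.U985.FM
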