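import Pool.Agent.U985.FM.Prim

/-! The core: how long two families of eigenvalues can agree. -/

set_option autoImplicit false

namespace Pool.Agent.U985.FM

open Filter Topology Complex
open Pool.Agent.U985.UT (KK KK_pos)

theorem sk_self_nonneg (y : ℕ → ℝ) (N₀ : ℕ) (v : ℝ) : 0 ≤ SK (bs N₀ y y) v :=
  tsum_nonneg fun m => mul_nonneg (bs_self_nonneg y N₀ m) (mul_nonneg (Real.exp_pos _).le (KK_pos _).le)

theorem sk_exp {c : ℕ → ℝ} (hc : Adm c) (v : ℝ) :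
    SK c v ≤ (Real.exp 16 * ∑' m : ℕ, 1 / (m : ℝ) ^ 2) * Real.exp (4 * v) := by
  have hs := (Real.summable_one_div_nat_pow.2 (show 1 < 2 by norm_num)).mul_left
    (Real.exp 16 * Real.exp (4 * v))
  have h1 : SK c v ≤ ∑' m : ℕ, Real.exp 16 * Real.exp (4 * v) * (1 / (m : ℝ) ^ 2) :=
    (summ_adm hc v).tsum_le_tsum (fun m => (le_abs_self _).trans (adm_term hc v m)) hs
  rw [tsum_mul_left] at h1
  linarith

/-- the sum of the fixed form -/
theorem sb_main {N₀ : ℕ} {y : ℕ → ℝ} (hy : ∀ p, |y p| ≤ 2) {G₀ : ℂ → ℂ} (hG₀ : Differentiable ℂ G₀)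
    (hGe : ∀ s : ℂ, 1 < s.re → G₀ s = (s - 1) * ∑' m : ℕ, (bs N₀ y y m : ℂ) * (m : ℂ) ^ (-s)) {M B : ℝ}
    (hgr : ∀ s : ℂ, 3 / 4 ≤ s.re → s.re ≤ 6 → ‖G₀ s‖ ≤ M * (1 + |s.im|) ^ B) :
    Tendsto (SK (bs N₀ y y)) atTop (𝓝 (2 * √Real.pi * (G₀ 1).re)) ∧
    ∃ B₁ : ℝ, 0 ≤ B₁ ∧ (∀ v, SK (bs N₀ y y) v ≤ B₁) ∧ ∀ v, SK (bs N₀ y y) v ≤ B₁ * Real.exp (4 * v) := by
  obtain ⟨A, hA, hc⟩ := contour (a := -(1 / 4)) (B := B) (by norm_num)
  have hM : ‖G₀ 1‖ ≤ M := by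
    have := hgr 1 (by norm_num) (by norm_num)
    simpa using this
  have hM0 : 0 ≤ M := (norm_nonneg _).trans hM
  have hadm := bs_adm hy hy N₀
  have h1 := hc (bs N₀ y y) hadm G₀ M hG₀ hM0 (fun s hs => hGe s (by linarith))
    (fun s h1 h2 => hgr s (by linarith) h2)
  set R : ℝ := 2 * √Real.pi * (G₀ 1).re with hR
  refine ⟨?_, ?_⟩
  · rw [tendsto_iff_norm_sub_tendsto_zero]
    refine squeeze_zero (fun v => norm_nonneg _) (fun v => h1 v) ?_
    have h2 : Tendsto (fun v : ℝ => A * M * Real.exp (-(1 / 4) * v)) atTop (𝓝 (A * M * 0)) := by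
      refine Tendsto.const_mul _ ?_
      have := Real.tendsto_exp_neg_atTop_nhds_zero.comp
        (tendsto_id.const_mul_atTop (show (0 : ℝ) < 1 / 4 by norm_num))
      refine this.congr fun v => ?_
      simp
    rwa [mul_zero] at h2
  · set K₁ : ℝ := Real.exp 16 * ∑' m : ℕ, 1 / (m : ℝ) ^ 2 with hK₁
    have hK0 : 0 ≤ K₁ := by
      have : 0 ≤ ∑' m : ℕ, 1 / (m : ℝ) ^ 2 := tsum_nonneg fun m => by positivity
      positivity
    refine ⟨max K₁ (|R| + A * M), le_max_of_le_left hK0, fun v => ?_, fun v => ?_⟩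
    · rcases le_total 0 v with hv | hv
      · refine le_trans ?_ (le_max_right _ _)
        have h2 := (abs_le.1 (h1 v)).2
        have h3 : A * M * Real.exp (-(1 / 4) * v) ≤ A * M * 1 := by
          refine mul_le_mul_of_nonneg_left ?_ (by positivity)
          rw [Real.exp_le_one_iff]
          linarith
        have h4 := le_abs_self R
        linarith
      · refine le_trans ?_ (le_max_left _ _)
        refine (sk_exp hadm v).trans ?_
        have : Real.exp (4 * v) ≤ 1 := by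
          rw [Real.exp_le_one_iff]
          linarith
        nlinarith
    · refine (sk_exp hadm v).trans ?_
      exact mul_le_mul_of_nonneg_right (le_max_left _ _) (Real.exp_pos _).le

/-- **the core** -/
theorem core {N₀ : ℕ} (hN₀ : N₀ ≠ 0) {y : ℕ → ℝ} (hy : ∀ p, |y p| ≤ 2) {G₀ : ℂ → ℂ}
    (hG₀ : Differentiable ℂ G₀)
    (hGe : ∀ s : ℂ, 1 < s.re → G₀ s = (s - 1) * ∑' m : ℕ, (bs N₀ y y m : ℂ) * (m : ℂ) ^ (-s)) {M₀ B₀ : ℝ}
    (hgr : ∀ s : ℂ, 3 / 4 ≤ s.re → s.re ≤ 6 → ‖G₀ s‖ ≤ M₀ * (1 + |s.im|) ^ B₀) (hpos : 0 < (G₀ 1).re)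
    {μ : ℝ} (hμ : 0 ≤ μ) (hW : Tendsto (fun t => Ws y t / t) atTop (𝓝 μ)) {θ : ℝ} (hθ0 : 1 / 2 < θ)
    (hθ1 : θ < 1) (hμθ : μ * Real.log (1 / θ) < 1) {a B ε : ℝ} (ha : -(1 / 2) ≤ a) (ha0 : a < 0)
    (hε : 0 < ε) :
    ∃ C : ℝ, 1 ≤ C ∧ ∀ D : ℕ, D ≠ 0 → N₀ ∣ D → ∀ x : ℕ → ℝ, (∀ p, |x p| ≤ 2) → ∀ (F : ℂ → ℂ) (M : ℝ),
      1 ≤ M → Differentiable ℂ F →
      (∀ s : ℂ, 1 < s.re → F s = ∑' m : ℕ, (bs D x y m : ℂ) * (m : ℂ) ^ (-s)) →
      (∀ s : ℂ, 1 + a ≤ s.re → s.re ≤ 6 → ‖F s‖ ≤ M * (1 + |s.im|) ^ B) →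
      ∀ P : ℝ, 1 ≤ P → (∀ p : ℕ, p.Prime → (p : ℝ) ≤ P → ¬ p ∣ D → x p = y p) →
      P ≤ C * (M * (D : ℝ) ^ ε) ^ (θ / (-a)) := by
  obtain ⟨hlim, B₁, hB₁, hSB, hSe⟩ := sb_main (N₀ := N₀) hy hG₀ hGe hgr
  set R : ℝ := 2 * √Real.pi * (G₀ 1).re with hR
  have hR0 : 0 < R := by
    have := Real.sqrt_pos.2 Real.pi_pos
    positivity
  set L : ℝ := Real.log (1 / θ) with hL
  have hgap : 0 < R * (1 - μ * L) := mul_pos hR0 (by linarith)
  set η : ℝ := R * (1 - μ * L) / 4 with hη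
  have hη0 : 0 < η := by positivity
  obtain ⟨A₁, hA₁, hc⟩ := contour (a := a) (B := B + 1) ha0
  obtain ⟨A₂, hA₂, hd⟩ := dec_bound (ε := ε) (a := a) hε ha
  obtain ⟨z₁, hz₁⟩ := tt_small hθ0
  have hprime := prime_part hy hμ hR0.le hB₁ (sk_self_nonneg y N₀) hSB hSe hlim hW (by linarith) hθ1 hη0
  have htail : ∀ᶠ z : ℝ in atTop, 2 * ((∑' m : ℕ, 1 / (m : ℝ) ^ 2) * Real.exp (-z)) ≤ η / 2 := by
    have h1 : Tendsto (fun z : ℝ => 2 * ((∑' m : ℕ, 1 / (m : ℝ) ^ 2) * Real.exp (-z))) atTop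
        (𝓝 (2 * ((∑' m : ℕ, 1 / (m : ℝ) ^ 2) * 0))) :=
      (Real.tendsto_exp_neg_atTop_nhds_zero.const_mul _).const_mul _
    rw [mul_zero, mul_zero] at h1
    exact (h1.eventually (gt_mem_nhds (by positivity : (0 : ℝ) < η / 2))).mono fun v h => h.le
  have hlow : ∀ᶠ z : ℝ in atTop, R - η ≤ SK (bs N₀ y y) z :=
    (hlim.eventually (lt_mem_nhds (by linarith))).mono fun v h => h.le
  obtain ⟨z₂, hz₂⟩ := eventually_atTop.1 ((hprime.and htail).and hlow)
  set z₀ : ℝ := max z₁ (max z₂ 0) with hz₀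
  have hθp : 0 < θ := by linarith
  set Q₀ : ℝ := A₂ * (A₁ * 5) / η with hQ₀
  have hQ₀0 : 0 ≤ Q₀ := by positivity
  set e : ℝ := θ / (-a) with he
  have he0 : 0 < e := div_pos hθp (by linarith)
  refine ⟨max 1 (max (Real.exp (θ * z₀)) (Q₀ ^ e)), le_max_left _ _,
    fun D hD hdiv x hx F M hM hF hFe hFg P hP hagree => ?_⟩
  have hMD : 1 ≤ M * (D : ℝ) ^ ε := by
    have h1 : (1 : ℝ) ≤ (D : ℝ) ^ ε :=
      Real.one_le_rpow (by exact_mod_cast Nat.pos_of_ne_zero hD) hε.le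
    nlinarith
  have hMDe : 1 ≤ (M * (D : ℝ) ^ ε) ^ e := Real.one_le_rpow hMD he0.le
  have hP0 : 0 < P := by linarith
  set z : ℝ := Real.log P / θ with hz
  have hPz : Real.exp (θ * z) = P := by
    rw [hz, mul_div_cancel₀ _ hθp.ne', Real.exp_log hP0]
  rcases le_total z z₀ with hzz | hzz
  · calc P = Real.exp (θ * z) := hPz.symm
      _ ≤ Real.exp (θ * z₀) := Real.exp_le_exp.2 (mul_le_mul_of_nonneg_left hzz hθp.le)
      _ ≤ max 1 (max (Real.exp (θ * z₀)) (Q₀ ^ e)) := (le_max_left _ _).trans (le_max_right _ _)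
      _ ≤ max 1 (max (Real.exp (θ * z₀)) (Q₀ ^ e)) * (M * (D : ℝ) ^ ε) ^ e := by
          refine le_mul_of_one_le_right ?_ hMDe
          exact le_trans zero_le_one (le_max_left _ _)
  · have hz1 : z₁ ≤ z := (le_max_left _ _).trans hzz
    have hz2 : z₂ ≤ z := ((le_max_left _ _).trans (le_max_right _ _)).trans hzz
    obtain ⟨⟨hp1, ht1⟩, hl1⟩ := hz₂ z hz2
    -- the sum of the pair
    have hG : ∀ v : ℝ, |SK (bs D x y) v| ≤ (A₁ * (5 * M)) * Real.exp (a * v) := by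
      intro v
      have h1 := hc (bs D x y) (bs_adm hx hy D) (fun s => (s - 1) * F s) (5 * M)
        ((differentiable_id.sub_const 1).mul hF) (by positivity)
        (fun s hs => by rw [hFe s (by linarith)])
        (fun s hs1 hs2 => by
          rw [norm_mul]
          have h2 := hFg s hs1 hs2
          have h3 : ‖s - 1‖ ≤ 5 * (1 + |s.im|) := by
            have h4 := Complex.norm_le_abs_re_add_abs_im (s - 1)
            simp only [Complex.sub_re, Complex.one_re, Complex.sub_im, Complex.one_im, sub_zero] at h4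
            have h5 : |s.re - 1| ≤ 5 := by
              rw [abs_le]
              constructor <;> linarith
            have := abs_nonneg s.im
            linarith
          have h6 : (0 : ℝ) < 1 + |s.im| := by
            have := abs_nonneg s.im
            linarith
          calc ‖s - 1‖ * ‖F s‖ ≤ (5 * (1 + |s.im|)) * (M * (1 + |s.im|) ^ B) := by gcongr
            _ = 5 * M * ((1 + |s.im|) ^ B * (1 + |s.im|)) := by ring
            _ = 5 * M * (1 + |s.im|) ^ (B + 1) := by rw [Real.rpow_add_one h6.ne'])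
        v
      simpa using h1
    have hx' := abs_xp_le hx hy D
    have hE := hd N₀ D hN₀ hD hdiv x y hx hy (A₁ * (5 * M)) (by positivity) hG z
    have hag : ∀ p : ℕ, p.Prime → (p : ℝ) ≤ P → xp D x y p = y p := by
      intro p hp hpP
      unfold xp
      split_ifs with h
      · rfl
      · exact hagree p hp hpP h
    have hI := sk_ineq hx' hy hP hag N₀ z
    have hlogP : Real.log P = θ * z := by
      rw [hz, mul_div_cancel₀ _ hθp.ne']
    rw [hlogP] at hI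
    have ht2 := hz₁ z hz1
    rw [hPz] at ht2
    have h7 : η ≤ A₂ * (D : ℝ) ^ ε * (A₁ * (5 * M)) * Real.exp (a * z) := by
      refine le_trans ?_ hE
      refine le_trans ?_ (le_abs_self _)
      have : R * (μ * L) = R - 4 * η := by
        rw [hη]
        ring
      linarith
    have h8 : Real.exp (-a * z) ≤ Q₀ * (M * (D : ℝ) ^ ε) := by
      have h9 : Real.exp (-a * z) * Real.exp (a * z) = 1 := by
        rw [← Real.exp_add]
        simp
      rw [hQ₀, div_mul_eq_mul_div, le_div_iff₀ hη0]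
      calc Real.exp (-a * z) * η ≤ Real.exp (-a * z) * (A₂ * (D : ℝ) ^ ε * (A₁ * (5 * M)) * Real.exp (a * z)) :=
            mul_le_mul_of_nonneg_left h7 (Real.exp_pos _).le
        _ = (Real.exp (-a * z) * Real.exp (a * z)) * (A₂ * (A₁ * 5) * (M * (D : ℝ) ^ ε)) := by ring
        _ = _ := by rw [h9, one_mul]
    calc P = Real.exp (θ * z) := hPz.symm
      _ = Real.exp (-a * z) ^ e := by
          rw [← Real.exp_mul, he]
          congr 1
          have : a ≠ 0 := ha0.ne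
          field_simp
      _ ≤ (Q₀ * (M * (D : ℝ) ^ ε)) ^ e := Real.rpow_le_rpow (Real.exp_pos _).le h8 he0.le
      _ = Q₀ ^ e * (M * (D : ℝ) ^ ε) ^ e := Real.mul_rpow hQ₀0 (by linarith)
      _ ≤ max 1 (max (Real.exp (θ * z₀)) (Q₀ ^ e)) * (M * (D : ℝ) ^ ε) ^ e :=
          mul_le_mul_of_nonneg_right ((le_max_right _ _).trans (le_max_right _ _)) (by positivity)

end Pool.Agent.U985.FM
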