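import Pool.Agent.U985.FM.Smooth

/-! The part of an integer at the primes of `D` and the part prime to `D`. -/

set_option autoImplicit false

namespace Pool.Agent.U985.FM

open Filter Topology
open Pool.Agent.U985.UT (KK KK_pos)

/-- the primes which divide `D` and not `N₀` -/
def sD (N₀ D : ℕ) : Finset ℕ := D.primeFactors \ N₀.primeFactors

theorem mem_sD {N₀ D p : ℕ} (hN : N₀ ≠ 0) (hD : D ≠ 0) : p ∈ sD N₀ D ↔ p.Prime ∧ p ∣ D ∧ ¬ p ∣ N₀ := by
  unfold sD
  rw [Finset.mem_sdiff, Nat.mem_primeFactors, Nat.mem_primeFactors]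
  tauto

/-- the coefficients `rs x y m` at the integers `m` prime to `N₀` -/
noncomputable def bs (N₀ : ℕ) (x y : ℕ → ℝ) (m : ℕ) : ℝ := if m ≠ 0 ∧ m.Coprime N₀ then rs x y m else 0

theorem bs_adm {x y : ℕ → ℝ} (hx : ∀ p, |x p| ≤ 2) (hy : ∀ p, |y p| ≤ 2) (N₀ : ℕ) : Adm (bs N₀ x y) := by
  constructor
  · simp [bs]
  · intro m hm
    unfold bs
    split_ifs
    · exact (abs_rs_le hx hy m).trans (dd_le m hm)
    · simp

theorem bs_self_nonneg (y : ℕ → ℝ) (N₀ m : ℕ) : 0 ≤ bs N₀ y y m := by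
  unfold bs
  split_ifs
  · exact rs_self_nonneg _ _
  · exact le_rfl

variable {N₀ D : ℕ}

theorem cop_uv (hN : N₀ ≠ 0) (hD : D ≠ 0) {u v : ℕ} (hu : u ∈ Nat.factoredNumbers (sD N₀ D)) (hv : v.Coprime D) :
    u.Coprime v := by
  refine Nat.coprime_of_dvd fun k hk h1 h2 => ?_
  have h3 := (mem_sD hN hD).1 ((Nat.mem_factoredNumbers'.1 hu) k hk h1)
  have h4 : k ∣ 1 := by
    have := Nat.dvd_gcd h2 h3.2.1
    rwa [hv] at this
  exact hk.one_lt.ne' (Nat.dvd_one.1 h4)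

theorem u_cop (hN : N₀ ≠ 0) (hD : D ≠ 0) {u : ℕ} (hu : u ∈ Nat.factoredNumbers (sD N₀ D)) : u.Coprime N₀ := by
  refine Nat.coprime_of_dvd fun k hk h1 h2 => ?_
  exact ((mem_sD hN hD).1 ((Nat.mem_factoredNumbers'.1 hu) k hk h1)).2.2 h2

theorem split_ex (hN : N₀ ≠ 0) (hD : D ≠ 0) {m : ℕ} (hm : m ≠ 0) (hc : m.Coprime N₀) :
    ∃ u v : ℕ, u ∈ Nat.factoredNumbers (sD N₀ D) ∧ v ≠ 0 ∧ v.Coprime D ∧ u * v = m := by
  set u := Nat.gcd m (D ^ m) with hu
  have hum : u ∣ m := Nat.gcd_dvd_left _ _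
  obtain ⟨v, hv⟩ := hum
  have hu0 : u ≠ 0 := fun h => hm (by rw [hv, h, zero_mul])
  have hv0 : v ≠ 0 := fun h => hm (by rw [hv, h, mul_zero])
  refine ⟨u, v, ?_, hv0, ?_, hv.symm⟩
  · rw [Nat.mem_factoredNumbers']
    intro p hp hpu
    rw [mem_sD hN hD]
    refine ⟨hp, hp.dvd_of_dvd_pow (hpu.trans (Nat.gcd_dvd_right _ _)), fun h => ?_⟩
    have h1 : p ∣ 1 := by
      have := Nat.dvd_gcd (hpu.trans (Nat.gcd_dvd_left _ _)) h
      rwa [hc] at this
    exact hp.one_lt.ne' (Nat.dvd_one.1 h1)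
  · refine Nat.coprime_of_dvd fun p hp h1 h2 => ?_
    obtain ⟨w, hw⟩ := h1
    have h3 : u * p ∣ u := by
      have h4 : m.factorization p ≤ m := (Nat.factorization_lt p hm).le
      have h5 : u * p ∣ m := ⟨w, by rw [mul_assoc, ← hw]; exact hv⟩
      have h6 : u * p ∣ D ^ m := by
        rw [← Nat.factorization_le_iff_dvd (mul_ne_zero hu0 hp.ne_zero) (pow_ne_zero _ hD)]
        intro q
        have hq1 : (u * p).factorization q ≤ m.factorization q :=
          (Nat.factorization_le_iff_dvd (mul_ne_zero hu0 hp.ne_zero) hm).2 h5 q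
        rw [Nat.factorization_pow]
        simp only [Finsupp.coe_smul, Pi.smul_apply, smul_eq_mul]
        by_cases hqp : q = p
        · subst hqp
          have h7 : 1 ≤ D.factorization q := (hp.dvd_iff_one_le_factorization hD).1 h2
          nlinarith
        · have h7 : (u * p).factorization q = u.factorization q := by
            rw [Nat.factorization_mul hu0 hp.ne_zero, Finsupp.add_apply, hp.factorization,
              Finsupp.single_apply, if_neg (Ne.symm hqp), add_zero]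
          rw [h7]
          have h8 := (Nat.factorization_le_iff_dvd hu0 (pow_ne_zero m hD)).2 (Nat.gcd_dvd_right m (D ^ m)) q
          rwa [Nat.factorization_pow] at h8
      rw [hu]
      exact Nat.dvd_gcd h5 h6
    have h4 := Nat.le_of_dvd (Nat.pos_of_ne_zero hu0) h3
    have h5 := hp.two_le
    have h6 := Nat.pos_of_ne_zero hu0
    nlinarith

theorem uv_inj (hN : N₀ ≠ 0) (hD : D ≠ 0) {u v u' v' : ℕ} (hu : u ∈ Nat.factoredNumbers (sD N₀ D))
    (hu' : u' ∈ Nat.factoredNumbers (sD N₀ D)) (hv : v.Coprime D) (hv' : v'.Coprime D) (h : u * v = u' * v') :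
    u = u' ∧ v = v' := by
  have h1 : u ∣ u' := (cop_uv hN hD hu hv').dvd_of_dvd_mul_right (h ▸ dvd_mul_right u v)
  have h2 : u' ∣ u := (cop_uv hN hD hu' hv).dvd_of_dvd_mul_right (h.symm ▸ dvd_mul_right u' v')
  have h3 := Nat.dvd_antisymm h1 h2
  subst h3
  exact ⟨rfl, Nat.eq_of_mul_eq_mul_left (Nat.pos_of_ne_zero (Nat.ne_zero_of_mem_factoredNumbers hu)) h⟩

/-- `x` outside `D` and `y` at the primes of `D` -/
noncomputable def xp (D : ℕ) (x y : ℕ → ℝ) (p : ℕ) : ℝ := if p ∣ D then y p else x p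

theorem abs_xp_le {x y : ℕ → ℝ} (hx : ∀ p, |x p| ≤ 2) (hy : ∀ p, |y p| ≤ 2) (D p : ℕ) : |xp D x y p| ≤ 2 := by
  unfold xp
  split_ifs
  · exact hy p
  · exact hx p

theorem dec (hN : N₀ ≠ 0) (hD : D ≠ 0) (hdiv : N₀ ∣ D) {x y : ℕ → ℝ} (hx : ∀ p, |x p| ≤ 2)
    (hy : ∀ p, |y p| ≤ 2) (z : ℝ) :
    HasSum (fun u : Nat.factoredNumbers (sD N₀ D) => rs y y u * Real.exp (-Real.log (u : ℕ)) *
      SK (bs D x y) (z - Real.log (u : ℕ))) (SK (bs N₀ (xp D x y) y) z) := by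
  set V : Set ℕ := {v | v ≠ 0 ∧ v.Coprime D} with hV
  set f : ℕ → ℝ := fun m => bs N₀ (xp D x y) y m * (Real.exp (-Real.log m) * KK (z - Real.log m)) with hf
  have h1 : HasSum f (SK (bs N₀ (xp D x y) y) z) := (summ_adm (bs_adm (abs_xp_le hx hy D) hy N₀) z).hasSum
  set φ : (Nat.factoredNumbers (sD N₀ D)) × V → ℕ := fun t => (t.1 : ℕ) * (t.2 : ℕ) with hφ
  have hinj : Function.Injective φ := by
    rintro ⟨⟨u, hu⟩, ⟨v, hv⟩⟩ ⟨⟨u', hu'⟩, ⟨v', hv'⟩⟩ h
    have := uv_inj hN hD hu hu' hv.2 hv'.2 h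
    simp only [Prod.mk.injEq, Subtype.mk.injEq]
    exact this
  have hout : ∀ m ∉ Set.range φ, f m = 0 := by
    intro m hm
    rw [hf]
    simp only
    unfold bs
    rw [if_neg, zero_mul]
    rintro ⟨h0, h2⟩
    obtain ⟨u, v, hu, hv0, hvc, huv⟩ := split_ex hN hD h0 h2
    exact hm ⟨(⟨u, hu⟩, ⟨v, hv0, hvc⟩), huv⟩
  have h2 := (hinj.hasSum_iff hout).2 h1
  refine h2.prod_fiberwise fun u => ?_
  obtain ⟨u, hu⟩ := u
  have hu0 := Nat.ne_zero_of_mem_factoredNumbers hu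
  have h3 : HasSum (fun v : ℕ => bs D x y v * (Real.exp (-Real.log v) * KK ((z - Real.log u) - Real.log v)))
      (SK (bs D x y) (z - Real.log u)) := (summ_adm (bs_adm hx hy D) _).hasSum
  have h4 : HasSum ((fun v : ℕ => rs x y v * (Real.exp (-Real.log v) * KK ((z - Real.log u) - Real.log v))) ∘
      ((↑) : V → ℕ)) (SK (bs D x y) (z - Real.log u)) := by
    rw [hasSum_subtype_iff_indicator]
    refine h3.congr_fun fun v => ?_
    unfold bs
    by_cases hv : v ≠ 0 ∧ v.Coprime D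
    · rw [if_pos hv, Set.indicator_of_mem (show v ∈ V from hv)]
    · rw [if_neg hv, Set.indicator_of_notMem (show v ∉ V from hv), zero_mul]
  refine (h4.mul_left (rs y y u * Real.exp (-Real.log u))).congr_fun fun v => ?_
  obtain ⟨v, hv0, hvc⟩ := v
  have hm0 : u * v ≠ 0 := mul_ne_zero hu0 hv0
  have hcop : (u * v).Coprime N₀ := by
    refine Nat.Coprime.mul_left (u_cop hN hD hu) ?_
    exact Nat.Coprime.coprime_dvd_right hdiv hvc
  have hr1 : rs (xp D x y) y u = rs y y u := by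
    refine rs_congr fun p hp hpu => ?_
    unfold xp
    rw [if_pos ((mem_sD hN hD).1 ((Nat.mem_factoredNumbers'.1 hu) p hp hpu)).2.1]
  have hr2 : rs (xp D x y) y v = rs x y v := by
    refine rs_congr fun p hp hpv => ?_
    unfold xp
    rw [if_neg]
    intro h
    have : p ∣ 1 := by
      have := Nat.dvd_gcd hpv h
      rwa [hvc] at this
    exact hp.one_lt.ne' (Nat.dvd_one.1 this)
  have hlog : Real.log ((u * v : ℕ) : ℝ) = Real.log u + Real.log v := by
    push_cast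
    exact Real.log_mul (by exact_mod_cast hu0) (by exact_mod_cast hv0)
  simp only [hφ, hf, Function.comp_apply]
  unfold bs
  rw [if_pos ⟨hm0, hcop⟩, rs_mul _ _ (cop_uv hN hD hu hvc), hr1, hr2, hlog, neg_add, Real.exp_add,
    ← sub_sub]
  ring

end Pool.Agent.U985.FM
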