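import Pool.Agent.Results.MP_4a0cc8_nt.ConductorExponent

/-! The common part of the applications to Frey curves. -/

set_option autoImplicit false

namespace Pool.Agent.U985.FM

open Pool.Agent.Results.MP_4a0cc8_nt.ConductorExponent

/-- one curve, with or without complex multiplication -/
theorem one_curve {cond : ℤ → ℤ → ℕ} {A₀ B₀ : ℤ} (h₀ : Minimal A₀ B₀)
    (h : Facts cond A₀ B₀ (8 / (3 * Real.pi)) ∨ Facts cond A₀ B₀ (2 / Real.pi)) :
    ∃ C : ℝ, 0 < C ∧ ∀ A B, Minimal A B → ¬ Isogenous A B A₀ B₀ → ∀ n : ℕ, Congruent n A B A₀ B₀ →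
      (n : ℝ) ≤ C * (cond A B : ℝ) ^ (0.3452 : ℝ) := by
  have hpi := Real.pi_pos
  rcases h with h | h
  · exact (result cond A₀ B₀ h₀ _ (by positivity) h).2.1 rfl
  · have := ((result cond A₀ B₀ h₀ _ (by positivity) h).1 0.6904 (by norm_num)
      (num2.trans (by norm_num))).1
    norm_num at this ⊢
    exact this

/-- finitely many curves -/
theorem many_curves {cond : ℤ → ℤ → ℕ} (𝓔 : Finset (ℤ × ℤ))
    (h : ∀ e ∈ 𝓔, Minimal e.1 e.2 ∧
      (Facts cond e.1 e.2 (8 / (3 * Real.pi)) ∨ Facts cond e.1 e.2 (2 / Real.pi))) :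
    ∃ C : ℝ, 1 ≤ C ∧ ∀ e ∈ 𝓔, ∀ A B, Minimal A B → ¬ Isogenous A B e.1 e.2 → ∀ n : ℕ,
      Congruent n A B e.1 e.2 → (n : ℝ) ≤ C * (cond A B : ℝ) ^ (0.3452 : ℝ) := by
  have h1 : ∀ e : 𝓔, ∃ C : ℝ, 0 < C ∧ ∀ A B, Minimal A B → ¬ Isogenous A B e.1.1 e.1.2 → ∀ n : ℕ,
      Congruent n A B e.1.1 e.1.2 → (n : ℝ) ≤ C * (cond A B : ℝ) ^ (0.3452 : ℝ) :=
    fun e => one_curve (h e.1 e.2).1 (h e.1 e.2).2
  choose C hC0 hC using h1
  refine ⟨1 + ∑ e, C e, ?_, fun e he A B hm hi n hc => ?_⟩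
  · have : 0 ≤ ∑ e, C e := Finset.sum_nonneg fun e _ => (hC0 e).le
    linarith
  · refine (hC ⟨e, he⟩ A B hm hi n hc).trans ?_
    have h2 : C ⟨e, he⟩ ≤ ∑ e, C e := Finset.single_le_sum (f := C) (fun e _ => (hC0 e).le) (Finset.mem_univ _)
    refine mul_le_mul_of_nonneg_right (by linarith) (by positivity)

end Pool.Agent.U985.FM
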