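import Pool.Agent.U985.FM.Bd

/-! The inequality between the smoothed sums. -/

set_option autoImplicit false

namespace Pool.Agent.U985.FM

open Filter Topology
open Pool.Agent.U985.UT (KK KK_pos)

/-- the primes `p` with `log p ≤ t` -/
noncomputable def pl (t : ℝ) : Finset ℕ := (Finset.Icc 1 ⌊Real.exp t⌋₊).filter Nat.Prime

theorem mem_pl {t : ℝ} {p : ℕ} : p ∈ pl t ↔ p.Prime ∧ Real.log p ≤ t := by
  unfold pl
  rw [Finset.mem_filter, Finset.mem_Icc]
  constructor
  · rintro ⟨⟨h1, h2⟩, h3⟩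
    refine ⟨h3, ?_⟩
    have h4 : (p : ℝ) ≤ Real.exp t := (Nat.le_floor_iff (Real.exp_pos _).le).1 h2
    rw [Real.log_le_iff_le_exp (by exact_mod_cast h3.pos)]
    exact h4
  · rintro ⟨h1, h2⟩
    refine ⟨⟨h1.one_lt.le, ?_⟩, h1⟩
    rw [Nat.le_floor_iff (Real.exp_pos _).le]
    exact (Real.log_le_iff_le_exp (by exact_mod_cast h1.pos)).1 h2

/-- the primes `p` with `α < log p ≤ β` -/
noncomputable def pin (α β : ℝ) : Finset ℕ := (pl β).filter fun p : ℕ => α < Real.log p

theorem mem_pin {α β : ℝ} {p : ℕ} : p ∈ pin α β ↔ p.Prime ∧ α < Real.log p ∧ Real.log p ≤ β := by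
  unfold pin
  rw [Finset.mem_filter, mem_pl]
  tauto

/-- the weight of a prime -/
noncomputable def wt (y : ℕ → ℝ) (p : ℕ) : ℝ := 2 * |y p| + y p ^ 2

theorem wt_nonneg (y : ℕ → ℝ) (p : ℕ) : 0 ≤ wt y p := by
  unfold wt
  positivity

theorem wt_le {y : ℕ → ℝ} (hy : ∀ p, |y p| ≤ 2) (p : ℕ) : wt y p ≤ 8 := by
  unfold wt
  have h1 := hy p
  have h2 := abs_nonneg (y p)
  rw [← sq_abs]
  nlinarith

/-- the tail -/
noncomputable def tt (P : ℝ) (m : ℕ) : ℝ := if P ^ 2 < m then dd m else 0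

theorem tt_nonneg (P : ℝ) (m : ℕ) : 0 ≤ tt P m := by
  unfold tt
  split_ifs
  · exact dd_nonneg m
  · exact le_rfl

theorem tt_adm (P : ℝ) : Adm (tt P) := by
  constructor
  · unfold tt
    rw [if_neg]
    push_cast
    nlinarith [sq_nonneg P]
  · intro m hm
    rw [abs_of_nonneg (tt_nonneg _ _)]
    unfold tt
    split_ifs
    · exact dd_le m hm
    · positivity

theorem bs_low {x y : ℕ → ℝ} (hx : ∀ p, |x p| ≤ 2) (hy : ∀ p, |y p| ≤ 2) {P : ℝ} (hP : 1 ≤ P)
    (h : ∀ p : ℕ, p.Prime → (p : ℝ) ≤ P → x p = y p) (N₀ m : ℕ) :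
    bs N₀ y y m ≤ bs N₀ x y m + (∑ p ∈ pin (Real.log P) (2 * Real.log P),
      if p ∣ m then wt y p * bs N₀ y y (m / p) else 0) + 2 * tt P m := by
  have hP0 : 0 < P := by linarith
  have h0 : 0 ≤ ∑ p ∈ pin (Real.log P) (2 * Real.log P),
      (if p ∣ m then wt y p * bs N₀ y y (m / p) else 0) := by
    refine Finset.sum_nonneg fun p _ => ?_
    split_ifs
    · exact mul_nonneg (wt_nonneg _ _) (bs_self_nonneg _ _ _)
    · exact le_rfl
  have ht := tt_nonneg P m
  by_cases hm : m ≠ 0 ∧ m.Coprime N₀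
  · have e1 : bs N₀ y y m = rs y y m := if_pos hm
    have e2 : bs N₀ x y m = rs x y m := if_pos hm
    rw [e1, e2]
    by_cases hc : P ^ 2 < m
    · have e3 : tt P m = dd m := if_pos hc
      have h1 := (abs_le.1 (abs_rs_le hx hy m)).1
      have h2 := (abs_le.1 (abs_rs_le hy hy m)).2
      linarith
    · have h1 := rs_low hx hy hP h hm.1
      rw [if_neg hc, add_zero] at h1
      refine h1.trans ?_
      have h2 : ∑ p ∈ m.primeFactors.filter (fun p : ℕ => P < p), (2 * |y p| + y p ^ 2) * rs y y (m / p) ≤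
          ∑ p ∈ pin (Real.log P) (2 * Real.log P), (if p ∣ m then wt y p * bs N₀ y y (m / p) else 0) := by
        have hsub : m.primeFactors.filter (fun p : ℕ => P < p) ⊆ pin (Real.log P) (2 * Real.log P) := by
          intro p hp
          rw [Finset.mem_filter, Nat.mem_primeFactors] at hp
          obtain ⟨⟨hp1, hp2, _⟩, hp3⟩ := hp
          rw [mem_pin]
          refine ⟨hp1, Real.log_lt_log hP0 hp3, ?_⟩
          have h3 : (p : ℝ) ≤ P ^ 2 :=
            (show (p : ℝ) ≤ m by exact_mod_cast Nat.le_of_dvd (Nat.pos_of_ne_zero hm.1) hp2).trans (not_lt.1 hc)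
          have h4 : (0 : ℝ) < p := by exact_mod_cast hp1.pos
          calc Real.log p ≤ Real.log (P ^ 2) := Real.log_le_log h4 h3
            _ = 2 * Real.log P := by rw [Real.log_pow]; norm_num
        refine le_trans (le_of_eq ?_) (Finset.sum_le_sum_of_subset_of_nonneg hsub fun p _ _ => ?_)
        · refine Finset.sum_congr rfl fun p hp => ?_
          rw [Finset.mem_filter, Nat.mem_primeFactors] at hp
          obtain ⟨⟨hp1, hp2, _⟩, hp3⟩ := hp
          rw [if_pos hp2]
          have hm' : m / p ≠ 0 ∧ (m / p).Coprime N₀ := by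
            refine ⟨?_, Nat.Coprime.coprime_dvd_left (Nat.div_dvd_of_dvd hp2) hm.2⟩
            exact (Nat.div_pos (Nat.le_of_dvd (Nat.pos_of_ne_zero hm.1) hp2) hp1.pos).ne'
          have e3 : bs N₀ y y (m / p) = rs y y (m / p) := if_pos hm'
          rw [e3]
          rfl
        · split_ifs
          · exact mul_nonneg (wt_nonneg _ _) (bs_self_nonneg _ _ _)
          · exact le_rfl
      linarith
  · have e1 : bs N₀ y y m = 0 := if_neg hm
    have e2 : bs N₀ x y m = 0 := if_neg hm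
    rw [e1, e2]
    linarith

theorem mult_sum {y : ℕ → ℝ} (hy : ∀ p, |y p| ≤ 2) (N₀ : ℕ) {p : ℕ} (hp : p.Prime) (z : ℝ) :
    HasSum (fun m : ℕ => (if p ∣ m then wt y p * bs N₀ y y (m / p) else 0) *
      (Real.exp (-Real.log m) * KK (z - Real.log m))) (wt y p / p * SK (bs N₀ y y) (z - Real.log p)) := by
  have hinj : Function.Injective fun k : ℕ => p * k := fun a b h => Nat.eq_of_mul_eq_mul_left hp.pos h
  have hp0 : (0 : ℝ) < p := by exact_mod_cast hp.pos
  rw [← hinj.hasSum_iff]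
  · have h1 := (summ_adm (bs_adm hy hy N₀) (z - Real.log p)).hasSum.mul_left (wt y p / p)
    refine h1.congr_fun fun k => ?_
    simp only [Function.comp_apply, dvd_mul_right, if_true]
    rw [Nat.mul_div_cancel_left _ hp.pos]
    rcases Nat.eq_zero_or_pos k with rfl | hk
    · rw [(bs_adm hy hy N₀).1]
      simp
    · have hk0 : (0 : ℝ) < k := by exact_mod_cast hk
      push_cast
      rw [Real.log_mul hp0.ne' hk0.ne', neg_add, Real.exp_add, Real.exp_neg (Real.log p), Real.exp_log hp0,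
        ← sub_sub]
      field_simp
  · intro m hm
    rw [if_neg, zero_mul]
    rintro ⟨k, hk⟩
    exact hm ⟨k, hk.symm⟩

/-- **the inequality** -/
theorem sk_ineq {x y : ℕ → ℝ} (hx : ∀ p, |x p| ≤ 2) (hy : ∀ p, |y p| ≤ 2) {P : ℝ} (hP : 1 ≤ P)
    (h : ∀ p : ℕ, p.Prime → (p : ℝ) ≤ P → x p = y p) (N₀ : ℕ) (z : ℝ) :
    SK (bs N₀ y y) z ≤ SK (bs N₀ x y) z + (∑ p ∈ pin (Real.log P) (2 * Real.log P),
      wt y p / p * SK (bs N₀ y y) (z - Real.log p)) + 2 * SK (tt P) z := by
  have h1 := (summ_adm (bs_adm hy hy N₀) z).hasSum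
  have h2 := (summ_adm (bs_adm hx hy N₀) z).hasSum
  have h3 := hasSum_sum (s := pin (Real.log P) (2 * Real.log P)) fun p hp => mult_sum hy N₀ (mem_pin.1 hp).1 z
  have h4 := (summ_adm (tt_adm P) z).hasSum.mul_left 2
  refine hasSum_le (fun m => ?_) h1 ((h2.add h3).add h4)
  have h5 := bs_low hx hy hP h N₀ m
  have h6 : 0 ≤ Real.exp (-Real.log m) * KK (z - Real.log m) := mul_nonneg (Real.exp_pos _).le (KK_pos _).le
  have h7 := mul_le_mul_of_nonneg_right h5 h6
  rw [add_mul, add_mul, Finset.sum_mul, mul_assoc 2] at h7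
  exact h7

theorem tt_small {θ : ℝ} (hθ : 1 / 2 < θ) : ∃ z₀ : ℝ, ∀ z : ℝ, z₀ ≤ z →
    SK (tt (Real.exp (θ * z))) z ≤ (∑' m : ℕ, 1 / (m : ℝ) ^ 2) * Real.exp (-z) := by
  set c : ℝ := (1 - 1 / (2 * θ)) ^ 2 / 4 with hc
  have hθ0 : 0 < θ := by linarith
  have hd : 0 < 1 - 1 / (2 * θ) := by
    rw [sub_pos, div_lt_one (by linarith)]
    linarith
  have hc0 : 0 < c := by positivity
  refine ⟨5 / c, fun z hz => ?_⟩
  have hz0 : 0 < z := lt_of_lt_of_le (by positivity) hz
  have hs := (Real.summable_one_div_nat_pow.2 (show 1 < 2 by norm_num)).mul_right (Real.exp (-z))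
  rw [← tsum_mul_right]
  refine (summ_adm (tt_adm _) z).tsum_le_tsum (fun m => ?_) hs
  unfold tt
  split_ifs with hm
  · have hm1 : (0 : ℝ) < m := lt_of_le_of_lt (by positivity) hm
    have hm0 : m ≠ 0 := by
      rintro rfl
      simp at hm1
    set u := Real.log m with hu
    have hu1 : 2 * θ * z < u := by
      have h1 := Real.log_lt_log (by positivity) hm
      rw [Real.log_pow, Real.log_exp] at h1
      push_cast at h1
      linarith
    have hzu : z < u := by nlinarith
    have h2 : (1 - 1 / (2 * θ)) * u ≤ u - z := by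
      have h3 : z ≤ 1 / (2 * θ) * u := by
        rw [div_mul_eq_mul_div, one_mul, le_div_iff₀ (by linarith)]
        linarith
      linarith
    have hu0 : 0 < u := by linarith
    have h4 : c * u ^ 2 ≤ (z - u) ^ 2 / 4 := by
      have h5 : ((1 - 1 / (2 * θ)) * u) ^ 2 ≤ (u - z) ^ 2 :=
        pow_le_pow_left₀ (mul_nonneg hd.le hu0.le) h2 2
      rw [hc]
      nlinarith
    have h5 : 5 * u ≤ c * u ^ 2 := by
      have h6 : 5 ≤ c * u := by
        have : 5 / c ≤ u := by linarith
        rw [div_le_iff₀ hc0] at this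
        linarith
      nlinarith
    have h6 : dd m ≤ Real.exp (3 * u) := by
      refine (dd_le m hm0).trans (le_of_eq ?_)
      rw [hu, show (3 : ℝ) * Real.log m = ((3 : ℕ) : ℝ) * Real.log m by norm_num, ← Real.log_pow,
        Real.exp_log (pow_pos hm1 3)]
    have h7 : KK (z - u) ≤ Real.exp (-(5 * u)) := by
      unfold KK
      refine Real.exp_le_exp.2 ?_
      have : -(z - u) ^ 2 / 4 = -((z - u) ^ 2 / 4) := by ring
      linarith
    have h8 : 1 / (m : ℝ) ^ 2 = Real.exp (-(2 * u)) := by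
      have := exp_neg_log hm0 2
      norm_num at this
      rw [this, one_div]
    rw [h8, ← Real.exp_add]
    calc dd m * (Real.exp (-u) * KK (z - u)) ≤ Real.exp (3 * u) * (Real.exp (-u) * Real.exp (-(5 * u))) := by
          have := (KK_pos (z - u)).le
          gcongr
      _ = Real.exp (-(2 * u) + -u) := by
          rw [← Real.exp_add, ← Real.exp_add]
          congr 1
          ring
      _ ≤ Real.exp (-(2 * u) + -z) := Real.exp_le_exp.2 (by linarith)
  · rw [zero_mul]
    positivity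

end Pool.Agent.U985.FM
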