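import Mathlib

/-! Coefficients of Rankin-Selberg `L`-functions of two forms, from the normalised traces of Frobenius. -/

set_option autoImplicit false

namespace Pool.Agent.U985.FM

open Finset

/-- the normalised Hecke eigenvalue at `p ^ k` of the form with the normalised eigenvalue `x` at `p`:
`1, x, x² - 1, ...` -/
def cf (x : ℝ) : ℕ → ℝ
  | 0 => 1
  | 1 => x
  | (k + 2) => x * cf x (k + 1) - cf x k

theorem sin_cf (t : ℝ) (k : ℕ) : Real.sin t * cf (2 * Real.cos t) k = Real.sin ((k + 1) * t) := by
  induction k using Nat.twoStepInduction with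
  | zero => simp [cf]
  | one =>
    simp only [cf]
    rw [show ((1 : ℕ) + 1 : ℝ) * t = 2 * t by norm_num, Real.sin_two_mul]
    ring
  | more k h1 h2 =>
    simp only [cf]
    have e : Real.sin t * (2 * Real.cos t * cf (2 * Real.cos t) (k + 1) - cf (2 * Real.cos t) k) =
        2 * Real.cos t * (Real.sin t * cf (2 * Real.cos t) (k + 1)) - Real.sin t * cf (2 * Real.cos t) k := by ring
    rw [e, h1, h2]
    push_cast
    have e1 : ((k : ℝ) + 2 + 1) * t = ((k : ℝ) + 1 + 1) * t + t := by ring
    have e2 : ((k : ℝ) + 1) * t = ((k : ℝ) + 1 + 1) * t - t := by ring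
    rw [e1, e2, Real.sin_add, Real.sin_sub]
    ring

theorem abs_sin_mul_le (k : ℕ) (t : ℝ) : |Real.sin (k * t)| ≤ k * |Real.sin t| := by
  induction k with
  | zero => simp
  | succ k ih =>
    push_cast
    rw [add_mul, one_mul, Real.sin_add]
    calc |Real.sin (k * t) * Real.cos t + Real.cos (k * t) * Real.sin t| ≤
          |Real.sin (k * t) * Real.cos t| + |Real.cos (k * t) * Real.sin t| := abs_add_le _ _
      _ = |Real.sin (k * t)| * |Real.cos t| + |Real.cos (k * t)| * |Real.sin t| := by rw [abs_mul, abs_mul]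
      _ ≤ |Real.sin (k * t)| * 1 + 1 * |Real.sin t| := by
          gcongr
          · exact Real.abs_cos_le_one _
          · exact Real.abs_cos_le_one _
      _ ≤ (k + 1) * |Real.sin t| := by linarith

theorem cf_two (k : ℕ) : cf 2 k = k + 1 := by
  induction k using Nat.twoStepInduction with
  | zero => simp [cf]
  | one => simp [cf]; norm_num
  | more k h1 h2 =>
    simp only [cf]
    rw [h1, h2]
    push_cast
    ring

theorem cf_neg_two (k : ℕ) : cf (-2) k = (-1) ^ k * (k + 1) := by
  induction k using Nat.twoStepInduction with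
  | zero => simp [cf]
  | one => simp [cf]; norm_num
  | more k h1 h2 =>
    simp only [cf]
    rw [h1, h2]
    push_cast
    ring

theorem abs_cf_le {x : ℝ} (hx : |x| ≤ 2) (k : ℕ) : |cf x k| ≤ k + 1 := by
  have hx' := abs_le.1 hx
  set t := Real.arccos (x / 2) with ht
  have hc : x = 2 * Real.cos t := by
    rw [ht, Real.cos_arccos (by linarith) (by linarith)]
    ring
  have h := sin_cf t k
  rw [← hc] at h
  by_cases hs : Real.sin t = 0
  · have h1 := Real.sin_sq_add_cos_sq t
    rw [hs] at h1
    have h2 : Real.cos t ^ 2 = 1 := by nlinarith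
    rcases sq_eq_one_iff.1 h2 with h3 | h3
    · rw [hc, h3, mul_one, cf_two, abs_of_nonneg (by positivity)]
    · rw [hc, h3, show (2 : ℝ) * -1 = -2 by norm_num, cf_neg_two, abs_mul, abs_pow, abs_neg, abs_one, one_pow,
        one_mul, abs_of_nonneg (by positivity)]
  · have h1 := abs_sin_mul_le (k + 1) t
    push_cast at h1
    rw [← h, abs_mul] at h1
    have h2 : 0 < |Real.sin t| := abs_pos.2 hs
    nlinarith [abs_nonneg (cf x k)]

end Pool.Agent.U985.FM
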