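import Pool.Agent.U985.FM.Ineq
import Pool.Agent.Erdos456.Mertens

/-! Sums over primes. -/

set_option autoImplicit false

namespace Pool.Agent.U985.FM

open Filter Topology

theorem pin_sum {α β : ℝ} (h : α ≤ β) (f : ℕ → ℝ) : ∑ p ∈ pin α β, f p = ∑ p ∈ pl β, f p - ∑ p ∈ pl α, f p := by
  have h1 := Finset.sum_filter_add_sum_filter_not (pl β) (fun p : ℕ => α < Real.log p) f
  have h2 : (pl β).filter (fun p : ℕ => ¬ α < Real.log p) = pl α := by
    ext p
    rw [Finset.mem_filter, mem_pl, mem_pl, not_lt]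
    constructor
    · rintro ⟨⟨h3, _⟩, h4⟩
      exact ⟨h3, h4⟩
    · rintro ⟨h3, h4⟩
      exact ⟨⟨h3, h4.trans h⟩, h4⟩
  rw [h2] at h1
  unfold pin
  linarith

theorem mert : ∃ A₀ : ℝ, 0 ≤ A₀ ∧ ∀ α β : ℝ, 0 ≤ α → α ≤ β →
    ∑ p ∈ pin α β, Real.log p / p ≤ (β - α) + A₀ := by
  obtain ⟨C, hC⟩ := Pool.Agent.Erdos456.Mert.mertens_log
  have key : ∀ t : ℝ, 0 ≤ t → |∑ p ∈ pl t, Real.log p / p - t| ≤ |C| + Real.log 2 := by
    intro t ht
    set N : ℕ := ⌊Real.exp t⌋₊ with hN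
    have hP : (1 : ℝ) ≤ Real.exp t := Real.one_le_exp ht
    have hN1 : 1 ≤ N := (Nat.one_le_floor_iff _).2 hP
    have h1 := hC N hN1
    have h2 : (N : ℝ) ≤ Real.exp t := Nat.floor_le (by linarith)
    have h3 : Real.exp t < N + 1 := Nat.lt_floor_add_one _
    have hN0 : (1 : ℝ) ≤ N := by exact_mod_cast hN1
    have h4 : Real.log N ≤ t := (Real.log_le_iff_le_exp (by linarith)).2 h2
    have h5 : t - Real.log 2 ≤ Real.log N := by
      rw [sub_le_iff_le_add, ← Real.log_mul (by linarith) (by norm_num)]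
      calc t = Real.log (Real.exp t) := (Real.log_exp t).symm
        _ ≤ Real.log (N * 2) := Real.log_le_log (Real.exp_pos _) (by linarith)
    have h6 : ∑ p ∈ pl t, Real.log p / p = ∑ p ∈ (Finset.Icc 1 N).filter Nat.Prime, Real.log p / p := rfl
    rw [h6]
    calc |∑ p ∈ (Finset.Icc 1 N).filter Nat.Prime, Real.log p / p - t| ≤
          |∑ p ∈ (Finset.Icc 1 N).filter Nat.Prime, Real.log p / p - Real.log N| + |Real.log N - t| := by
            have := abs_add_le (∑ p ∈ (Finset.Icc 1 N).filter Nat.Prime, Real.log p / p - Real.log N)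
              (Real.log N - t)
            rwa [sub_add_sub_cancel] at this
      _ ≤ |C| + Real.log 2 := by
          refine add_le_add (h1.trans (le_abs_self C)) ?_
          rw [abs_le]
          constructor
          · linarith
          · have := Real.log_nonneg (show (1 : ℝ) ≤ 2 by norm_num)
            linarith
  refine ⟨2 * (|C| + Real.log 2), by positivity, fun α β hα hαβ => ?_⟩
  rw [pin_sum hαβ]
  have h1 := (abs_le.1 (key β (hα.trans hαβ))).2
  have h2 := (abs_le.1 (key α hα)).1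
  linarith

theorem mert1 : ∃ A₀ : ℝ, 0 ≤ A₀ ∧ ∀ α β : ℝ, 0 < α → α ≤ β →
    ∑ p ∈ pin α β, 1 / (p : ℝ) ≤ ((β - α) + A₀) / α := by
  obtain ⟨A₀, hA, h⟩ := mert
  refine ⟨A₀, hA, fun α β hα hαβ => ?_⟩
  rw [le_div_iff₀ hα, Finset.sum_mul]
  refine (Finset.sum_le_sum fun p hp => ?_).trans (h α β hα.le hαβ)
  rw [mem_pin] at hp
  have hp0 : (0 : ℝ) < p := by exact_mod_cast hp.1.pos
  rw [div_mul_eq_mul_div, one_mul]
  exact div_le_div_of_nonneg_right hp.2.1.le hp0.le

/-- the weighted sum -/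
noncomputable def Ws (y : ℕ → ℝ) (t : ℝ) : ℝ := ∑ p ∈ pl t, wt y p * (Real.log p / p)

theorem wpart {y : ℕ → ℝ} {α β : ℝ} (hα : 0 < α) (hαβ : α ≤ β) :
    ∑ p ∈ pl β, wt y p / p - ∑ p ∈ pl α, wt y p / p ≤ (Ws y β - Ws y α) / α := by
  unfold Ws
  rw [← pin_sum hαβ, ← pin_sum hαβ, le_div_iff₀ hα, Finset.sum_mul]
  refine Finset.sum_le_sum fun p hp => ?_
  rw [mem_pin] at hp
  have hp0 : (0 : ℝ) < p := by exact_mod_cast hp.1.pos
  have h1 := wt_nonneg y p
  calc wt y p / p * α = wt y p * (α / p) := by ring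
    _ ≤ wt y p * (Real.log p / p) := by
        have := hp.2.1.le
        gcongr

theorem w_lim {y : ℕ → ℝ} {μ θ : ℝ} (hμ : 0 ≤ μ) (hθ0 : 0 < θ) (hθ1 : θ < 1)
    (hW : Tendsto (fun t => Ws y t / t) atTop (𝓝 μ)) {η : ℝ} (hη : 0 < η) :
    ∀ᶠ z : ℝ in atTop, ∑ p ∈ pin (θ * z) z, wt y p / p ≤ μ * Real.log (1 / θ) + η := by
  set L : ℝ := Real.log (1 / θ) with hL
  have hL0 : 0 < L := Real.log_pos (by rw [lt_div_iff₀ hθ0]; linarith)
  obtain ⟨K, hK⟩ := exists_nat_gt (max L (2 * (μ * L ^ 2) / η))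
  have hK1 : L < K := (le_max_left _ _).trans_lt hK
  have hK2 : 2 * (μ * L ^ 2) / η < K := (le_max_right _ _).trans_lt hK
  have hK0 : (0 : ℝ) < K := hL0.trans hK1
  set r : ℝ := Real.exp (-(L / K)) with hr
  have hr0 : 0 < r := Real.exp_pos _
  have hr1 : r ≤ 1 := by
    rw [hr, Real.exp_le_one_iff]
    have : 0 < L / K := by positivity
    linarith
  have hrK : r ^ K = θ := by
    rw [hr, ← Real.exp_nat_mul]
    have : (K : ℝ) * -(L / K) = Real.log θ := by
      rw [hL, one_div, Real.log_inv]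
      field_simp
    rw [this, Real.exp_log hθ0]
  have hWc : ∀ c : ℝ, 0 < c → Tendsto (fun z => Ws y (c * z) / z) atTop (𝓝 (c * μ)) := by
    intro c hc
    have h1 : Tendsto (fun z : ℝ => c * z) atTop atTop := tendsto_id.const_mul_atTop hc
    have h2 := (hW.comp h1).const_mul c
    refine h2.congr' ?_
    filter_upwards [eventually_gt_atTop 0] with z hz
    simp only [Function.comp_apply]
    field_simp
  have hstep : ∀ j : ℕ, Tendsto (fun z => (Ws y (r ^ j * z) - Ws y (r ^ (j + 1) * z)) / (r ^ (j + 1) * z)) atTop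
      (𝓝 (μ * (1 / r - 1))) := by
    intro j
    have h1 := hWc (r ^ j) (pow_pos hr0 j)
    have h2 := hWc (r ^ (j + 1)) (pow_pos hr0 _)
    have h3 := (h1.sub h2).mul_const (1 / r ^ (j + 1))
    have e : (r ^ j * μ - r ^ (j + 1) * μ) * (1 / r ^ (j + 1)) = μ * (1 / r - 1) := by
      rw [pow_succ]
      field_simp
    rw [e] at h3
    refine h3.congr' ?_
    filter_upwards [eventually_gt_atTop 0] with z hz
    field_simp
  have hsum := tendsto_finsetSum (Finset.range K) fun j _ => hstep j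
  rw [Finset.sum_const, Finset.card_range, nsmul_eq_mul] at hsum
  have hval : (K : ℝ) * (μ * (1 / r - 1)) < μ * L + η := by
    have h1 : 1 / r = Real.exp (L / K) := by rw [hr, Real.exp_neg, one_div, inv_inv]
    have h2 : |L / K| ≤ 1 := by
      rw [abs_of_pos (by positivity), div_le_one hK0]
      exact hK1.le
    have h3 := (abs_le.1 (Real.abs_exp_sub_one_sub_id_le h2)).2
    rw [h1]
    have h4 : (K : ℝ) * (μ * (Real.exp (L / K) - 1)) ≤ K * (μ * (L / K + (L / K) ^ 2)) := by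
      have : Real.exp (L / K) - 1 ≤ L / K + (L / K) ^ 2 := by linarith
      gcongr
    have h5 : (K : ℝ) * (μ * (L / K + (L / K) ^ 2)) = μ * L + μ * L ^ 2 / K := by
      field_simp
    have h6 : μ * L ^ 2 / K < η := by
      rw [div_lt_iff₀ hη] at hK2
      rw [div_lt_iff₀ hK0]
      nlinarith [mul_nonneg hμ (sq_nonneg L)]
    linarith
  filter_upwards [hsum.eventually (gt_mem_nhds hval), eventually_gt_atTop 0] with z hz hz0
  refine le_trans ?_ hz.le
  have hle : θ * z ≤ z := by nlinarith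
  rw [pin_sum hle]
  have htel := Finset.sum_range_sub' (fun j : ℕ => ∑ p ∈ pl (r ^ j * z), wt y p / p) K
  simp only [pow_zero, one_mul, hrK] at htel
  rw [← htel]
  refine Finset.sum_le_sum fun j _ => ?_
  refine wpart (by positivity) ?_
  rw [pow_succ]
  have : r ^ j * r ≤ r ^ j * 1 := mul_le_mul_of_nonneg_left hr1 (by positivity)
  rw [mul_one] at this
  exact mul_le_mul_of_nonneg_right this hz0.le

theorem prime_part {y : ℕ → ℝ} (hy : ∀ p, |y p| ≤ 2) {μ θ R B : ℝ} {S : ℝ → ℝ} (hμ : 0 ≤ μ) (hR : 0 ≤ R)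
    (hB : 0 ≤ B) (hS0 : ∀ v, 0 ≤ S v) (hSB : ∀ v, S v ≤ B) (hSe : ∀ v, S v ≤ B * Real.exp (4 * v))
    (hlim : Tendsto S atTop (𝓝 R)) (hW : Tendsto (fun t => Ws y t / t) atTop (𝓝 μ)) (hθ0 : 0 < θ)
    (hθ1 : θ < 1) {η : ℝ} (hη : 0 < η) :
    ∀ᶠ z : ℝ in atTop, ∑ p ∈ pin (θ * z) (2 * (θ * z)), wt y p / p * S (z - Real.log p) ≤
      R * (μ * Real.log (1 / θ)) + η := by
  set L : ℝ := Real.log (1 / θ) with hL
  have hL0 : 0 < L := Real.log_pos (by rw [lt_div_iff₀ hθ0]; linarith)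
  obtain ⟨A₀, hA₀, hm⟩ := mert1
  set η₁ : ℝ := min 1 (η / (2 * (R + μ * L + 1))) with hη₁
  have hden : 0 < R + μ * L + 1 := by positivity
  have hη₁0 : 0 < η₁ := lt_min one_pos (by positivity)
  have hη₁1 : η₁ ≤ 1 := min_le_left _ _
  have hη₁2 : η₁ * (R + μ * L + 1) ≤ η / 2 := by
    have : η₁ ≤ η / (2 * (R + μ * L + 1)) := min_le_right _ _
    rw [le_div_iff₀ (by positivity)] at this
    linarith
  -- the threshold
  have hev1 : ∀ᶠ v : ℝ in atTop, S v ≤ R + η₁ := (hlim.eventually (gt_mem_nhds (by linarith))).mono fun v h => h.le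
  have hev2 : ∀ᶠ v : ℝ in atTop, 16 * B * Real.exp (-(4 * v)) ≤ η / 4 := by
    have h1 : Tendsto (fun v : ℝ => 16 * B * Real.exp (-(4 * v))) atTop (𝓝 (16 * B * 0)) := by
      refine Tendsto.const_mul _ ?_
      exact Real.tendsto_exp_neg_atTop_nhds_zero.comp (tendsto_id.const_mul_atTop (by norm_num))
    rw [mul_zero] at h1
    exact (h1.eventually (gt_mem_nhds (by positivity : (0 : ℝ) < η / 4))).mono fun v h => h.le
  obtain ⟨Y₁, hY₁⟩ := eventually_atTop.1 (hev1.and hev2)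
  set Y₀ : ℝ := max Y₁ 0 with hY₀
  have hY0 : 0 ≤ Y₀ := le_max_right _ _
  have hYS : ∀ v, Y₀ ≤ v → S v ≤ R + η₁ := fun v hv => (hY₁ v ((le_max_left _ _).trans hv)).1
  have hYe := (hY₁ Y₀ (le_max_left _ _)).2
  have hev3 : ∀ᶠ z : ℝ in atTop, 8 * B * ((2 * Y₀ + A₀) / (z - Y₀)) ≤ η / 4 := by
    have h1 : Tendsto (fun z : ℝ => 8 * B * ((2 * Y₀ + A₀) / (z - Y₀))) atTop (𝓝 (8 * B * 0)) := by
      refine Tendsto.const_mul _ ?_
      exact Tendsto.const_div_atTop (tendsto_atTop_add_const_right _ _ tendsto_id) _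
    rw [mul_zero] at h1
    exact (h1.eventually (gt_mem_nhds (by positivity : (0 : ℝ) < η / 4))).mono fun v h => h.le
  filter_upwards [hev3, w_lim hμ hθ0 hθ1 hW hη₁0, eventually_gt_atTop (Y₀ + 1), eventually_ge_atTop A₀] with z h3 hw
    hzY hzA
  have hz0 : 0 < z := by linarith
  set F := pin (θ * z) (2 * (θ * z)) with hF
  set g : ℕ → ℝ := fun p => wt y p / p * S (z - Real.log p) with hg
  have hpos : ∀ p : ℕ, p.Prime → (0 : ℝ) < p := fun p hp => by exact_mod_cast hp.pos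
  have e1 := Finset.sum_filter_add_sum_filter_not F (fun p : ℕ => Real.log p ≤ z - Y₀) g
  have e2 := Finset.sum_filter_add_sum_filter_not (F.filter fun p : ℕ => ¬ Real.log p ≤ z - Y₀)
    (fun p : ℕ => Real.log p ≤ z + Y₀) g
  -- first part
  have b1 : ∑ p ∈ F.filter (fun p : ℕ => Real.log p ≤ z - Y₀), g p ≤ (R + η₁) * (μ * L + η₁) := by
    have h5 : ∑ p ∈ F.filter (fun p : ℕ => Real.log p ≤ z - Y₀), g p ≤
        ∑ p ∈ F.filter (fun p : ℕ => Real.log p ≤ z - Y₀), (R + η₁) * (wt y p / p) := by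
      refine Finset.sum_le_sum fun p hp => ?_
      rw [Finset.mem_filter] at hp
      have h6 := hYS (z - Real.log p) (by linarith [hp.2])
      have h7 : 0 ≤ wt y p / p := div_nonneg (wt_nonneg _ _) (by positivity)
      rw [hg]
      simp only
      nlinarith
    refine h5.trans ?_
    rw [← Finset.mul_sum]
    refine mul_le_mul_of_nonneg_left (le_trans ?_ hw) (by positivity)
    refine Finset.sum_le_sum_of_subset_of_nonneg (fun p hp => ?_) fun p _ _ =>
      div_nonneg (wt_nonneg _ _) (by positivity)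
    rw [Finset.mem_filter, hF, mem_pin] at hp
    rw [mem_pin]
    exact ⟨hp.1.1, hp.1.2.1, by linarith [hp.2]⟩
  -- second part
  have b2 : ∑ p ∈ (F.filter fun p : ℕ => ¬ Real.log p ≤ z - Y₀).filter (fun p : ℕ => Real.log p ≤ z + Y₀), g p ≤
      η / 4 := by
    have h5 : ∑ p ∈ (F.filter fun p : ℕ => ¬ Real.log p ≤ z - Y₀).filter (fun p : ℕ => Real.log p ≤ z + Y₀), g p ≤
        ∑ p ∈ (F.filter fun p : ℕ => ¬ Real.log p ≤ z - Y₀).filter (fun p : ℕ => Real.log p ≤ z + Y₀),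
          8 * B * (1 / p) := by
      refine Finset.sum_le_sum fun p hp => ?_
      have hw8 := wt_le hy p
      have hw0 := wt_nonneg y p
      have h6 := hSB (z - Real.log p)
      have h7 := hS0 (z - Real.log p)
      rw [hg]
      simp only
      calc wt y p / p * S (z - Real.log p) ≤ 8 / p * B := by gcongr
        _ = 8 * B * (1 / p) := by ring
    refine h5.trans ?_
    rw [← Finset.mul_sum]
    refine le_trans (mul_le_mul_of_nonneg_left ?_ (by positivity)) h3
    have h8 := hm (z - Y₀) (z + Y₀) (by linarith) (by linarith)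
    have e : z + Y₀ - (z - Y₀) + A₀ = 2 * Y₀ + A₀ := by ring
    rw [e] at h8
    refine le_trans (Finset.sum_le_sum_of_subset_of_nonneg (fun p hp => ?_) fun p _ _ => by positivity) h8
    rw [Finset.mem_filter, Finset.mem_filter, hF, mem_pin] at hp
    rw [mem_pin]
    exact ⟨hp.1.1.1, not_le.1 hp.1.2, hp.2⟩
  -- third part
  have b3 : ∑ p ∈ (F.filter fun p : ℕ => ¬ Real.log p ≤ z - Y₀).filter (fun p : ℕ => ¬ Real.log p ≤ z + Y₀), g p ≤
      η / 4 := by
    have h5 : ∑ p ∈ (F.filter fun p : ℕ => ¬ Real.log p ≤ z - Y₀).filter (fun p : ℕ => ¬ Real.log p ≤ z + Y₀), g p ≤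
        ∑ p ∈ (F.filter fun p : ℕ => ¬ Real.log p ≤ z - Y₀).filter (fun p : ℕ => ¬ Real.log p ≤ z + Y₀),
          8 * (B * Real.exp (-(4 * Y₀))) * (1 / p) := by
      refine Finset.sum_le_sum fun p hp => ?_
      rw [Finset.mem_filter, not_le] at hp
      have hw8 := wt_le hy p
      have hw0 := wt_nonneg y p
      have h6 : S (z - Real.log p) ≤ B * Real.exp (-(4 * Y₀)) := by
        refine (hSe _).trans (mul_le_mul_of_nonneg_left (Real.exp_le_exp.2 ?_) hB)
        linarith [hp.2]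
      have h7 := hS0 (z - Real.log p)
      rw [hg]
      simp only
      calc wt y p / p * S (z - Real.log p) ≤ 8 / p * (B * Real.exp (-(4 * Y₀))) := by gcongr
        _ = _ := by ring
    refine h5.trans ?_
    rw [← Finset.mul_sum]
    have h8 := hm z (2 * z) hz0 (by linarith)
    have h9 : (2 * z - z + A₀) / z ≤ 2 := by
      rw [div_le_iff₀ hz0]
      linarith
    have h10 : ∑ p ∈ (F.filter fun p : ℕ => ¬ Real.log p ≤ z - Y₀).filter (fun p : ℕ => ¬ Real.log p ≤ z + Y₀),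
        1 / (p : ℝ) ≤ 2 := by
      refine le_trans (Finset.sum_le_sum_of_subset_of_nonneg (fun p hp => ?_) fun p _ _ => by positivity)
        (h8.trans h9)
      rw [Finset.mem_filter, Finset.mem_filter, hF, mem_pin] at hp
      rw [mem_pin]
      refine ⟨hp.1.1.1, by linarith [not_le.1 hp.2], ?_⟩
      have := hp.1.1.2.2
      nlinarith
    calc 8 * (B * Real.exp (-(4 * Y₀))) * _ ≤ 8 * (B * Real.exp (-(4 * Y₀))) * 2 :=
          mul_le_mul_of_nonneg_left h10 (by positivity)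
      _ = 16 * B * Real.exp (-(4 * Y₀)) := by ring
      _ ≤ η / 4 := hYe
  have b4 : (R + η₁) * (μ * L + η₁) ≤ R * (μ * L) + η / 2 := by
    have : η₁ * η₁ ≤ η₁ * 1 := mul_le_mul_of_nonneg_left hη₁1 hη₁0.le
    nlinarith
  calc ∑ p ∈ F, g p ≤ (R + η₁) * (μ * L + η₁) + (η / 4 + η / 4) := by
        rw [← e1, ← e2]
        linarith
    _ ≤ _ := by linarith

end Pool.Agent.U985.FM
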