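import Pool.Agent.U985.FM.Lam

/-! The coefficients `rs x y m` of `L(s, f × g)`. -/

set_option autoImplicit false

namespace Pool.Agent.U985.FM

open Finset

/-- the coefficient of `L(s, f × g)` at `p ^ k` -/
def hh (x y : ℝ) (k : ℕ) : ℝ := ∑ j ∈ range (k / 2 + 1), cf x (k - 2 * j) * cf y (k - 2 * j)

theorem hh_zero (x y : ℝ) : hh x y 0 = 1 := by simp [hh, cf]

theorem hh_one (x y : ℝ) : hh x y 1 = x * y := by simp [hh, cf]

theorem hh_self_nonneg (y : ℝ) (k : ℕ) : 0 ≤ hh y y k := sum_nonneg fun _ _ => mul_self_nonneg _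

theorem abs_hh_le {x y : ℝ} (hx : |x| ≤ 2) (hy : |y| ≤ 2) (k : ℕ) : |hh x y k| ≤ ((k : ℝ) + 1) ^ 3 := by
  unfold hh
  refine (abs_sum_le_sum_abs _ _).trans ?_
  have h1 : ∀ j ∈ range (k / 2 + 1), |cf x (k - 2 * j) * cf y (k - 2 * j)| ≤ ((k : ℝ) + 1) ^ 2 := by
    intro j _
    rw [abs_mul, sq]
    have h2 : ((k - 2 * j : ℕ) : ℝ) + 1 ≤ k + 1 := by
      have : ((k - 2 * j : ℕ) : ℝ) ≤ k := by exact_mod_cast Nat.sub_le _ _
      linarith
    exact mul_le_mul ((abs_cf_le hx _).trans h2) ((abs_cf_le hy _).trans h2) (abs_nonneg _) (by positivity)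
  refine (sum_le_sum h1).trans ?_
  rw [sum_const, card_range, nsmul_eq_mul, pow_succ' _ 2]
  refine mul_le_mul_of_nonneg_right ?_ (by positivity)
  have : k / 2 + 1 ≤ k + 1 := by omega
  exact_mod_cast this

/-- the coefficient of `L(s, f × g)` at `m`; `x p`, `y p` are the normalised eigenvalues at the prime `p` -/
noncomputable def rs (x y : ℕ → ℝ) (m : ℕ) : ℝ := m.factorization.prod fun p k => hh (x p) (y p) k

theorem rs_one (x y : ℕ → ℝ) : rs x y 1 = 1 := by simp [rs]

theorem rs_self_nonneg (y : ℕ → ℝ) (m : ℕ) : 0 ≤ rs y y m := by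
  unfold rs Finsupp.prod
  exact prod_nonneg fun _ _ => hh_self_nonneg _ _

theorem rs_mul (x y : ℕ → ℝ) {m n : ℕ} (h : m.Coprime n) : rs x y (m * n) = rs x y m * rs x y n := by
  unfold rs
  rw [Nat.factorization_mul_of_coprime h]
  refine Finsupp.prod_add_index_of_disjoint ?_ _
  simpa using h.disjoint_primeFactors

theorem rs_prime_pow (x y : ℕ → ℝ) {p : ℕ} (hp : p.Prime) (k : ℕ) : rs x y (p ^ k) = hh (x p) (y p) k := by
  unfold rs
  rw [hp.factorization_pow, Finsupp.prod_single_index]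
  exact hh_zero _ _

theorem rs_prime (x y : ℕ → ℝ) {p : ℕ} (hp : p.Prime) : rs x y p = x p * y p := by
  have := rs_prime_pow x y hp 1
  rwa [pow_one, hh_one] at this

theorem rs_congr {x x' y : ℕ → ℝ} {m : ℕ} (h : ∀ p : ℕ, p.Prime → p ∣ m → x p = x' p) : rs x y m = rs x' y m := by
  unfold rs
  refine prod_congr rfl fun p hp => ?_
  rw [Nat.support_factorization, Nat.mem_primeFactors] at hp
  simp only
  rw [h p hp.1 hp.2.1]

/-- the bound -/
noncomputable def dd (m : ℕ) : ℝ := (m.factorization.prod fun _ k => ((k : ℝ) + 1)) ^ 3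

theorem dd_eq {m : ℕ} (hm : m ≠ 0) : dd m = (#m.divisors : ℝ) ^ 3 := by
  unfold dd
  rw [Nat.card_divisors hm, Finsupp.prod, Nat.support_factorization]
  push_cast
  rfl

theorem dd_le (m : ℕ) (hm : m ≠ 0) : dd m ≤ (m : ℝ) ^ 3 := by
  rw [dd_eq hm]
  have : (#m.divisors : ℝ) ≤ m := by exact_mod_cast Nat.card_divisors_le_self m
  gcongr

theorem dd_nonneg (m : ℕ) : 0 ≤ dd m := by
  unfold dd
  exact pow_nonneg (prod_nonneg fun _ _ => by positivity) 3

theorem dd_pos (m : ℕ) : 1 ≤ dd m := by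
  unfold dd
  refine one_le_pow₀ ?_
  unfold Finsupp.prod
  have : ∀ s : Finset ℕ, (1 : ℝ) ≤ ∏ p ∈ s, ((m.factorization p : ℝ) + 1) := by
    intro s
    induction s using Finset.induction_on with
    | empty => simp
    | insert a s ha ih =>
      rw [prod_insert ha]
      have h1 : (1 : ℝ) ≤ (m.factorization a : ℝ) + 1 := by
        have : (0 : ℝ) ≤ m.factorization a := by positivity
        linarith
      nlinarith
  exact this _

theorem abs_rs_le {x y : ℕ → ℝ} (hx : ∀ p, |x p| ≤ 2) (hy : ∀ p, |y p| ≤ 2) (m : ℕ) : |rs x y m| ≤ dd m := by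
  unfold rs dd Finsupp.prod
  rw [abs_prod, ← prod_pow]
  exact prod_le_prod (fun _ _ => abs_nonneg _) fun p _ => abs_hh_le (hx p) (hy p) _

theorem dd_mul {m n : ℕ} (h : m.Coprime n) : dd (m * n) = dd m * dd n := by
  unfold dd
  rw [← mul_pow]
  congr 1
  rw [Nat.factorization_mul_of_coprime h]
  refine Finsupp.prod_add_index_of_disjoint ?_ _
  simpa using h.disjoint_primeFactors

theorem dd_prime_pow {p : ℕ} (hp : p.Prime) (k : ℕ) : dd (p ^ k) = ((k : ℝ) + 1) ^ 3 := by
  unfold dd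
  rw [hp.factorization_pow, Finsupp.prod_single_index]
  simp

/-- the main inequality for the coefficients -/
theorem rs_low {x y : ℕ → ℝ} (hx : ∀ p, |x p| ≤ 2) (hy : ∀ p, |y p| ≤ 2) {P : ℝ} (hP : 1 ≤ P)
    (h : ∀ p : ℕ, p.Prime → (p : ℝ) ≤ P → x p = y p) {m : ℕ} (hm : m ≠ 0) :
    rs y y m ≤ rs x y m + (∑ p ∈ m.primeFactors.filter (fun p : ℕ => P < p),
      (2 * |y p| + y p ^ 2) * rs y y (m / p)) + (if P ^ 2 < m then 2 * dd m else 0) := by
  have h0 : 0 ≤ ∑ p ∈ m.primeFactors.filter (fun p : ℕ => P < p), (2 * |y p| + y p ^ 2) * rs y y (m / p) :=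
    sum_nonneg fun p _ => mul_nonneg (by positivity) (rs_self_nonneg _ _)
  split_ifs with hc
  · have h1 := (abs_le.1 (abs_rs_le hx hy m)).1
    have h2 := (abs_le.1 (abs_rs_le hy hy m)).2
    linarith
  · rw [not_lt] at hc
    by_cases hex : ∃ p : ℕ, p.Prime ∧ p ∣ m ∧ P < p
    · obtain ⟨p, hp, hpm, hpP⟩ := hex
      obtain ⟨k, rfl⟩ := hpm
      have hk0 : k ≠ 0 := fun h => hm (by rw [h, mul_zero])
      have hp0 : (0 : ℝ) < p := by linarith
      have hkP : (k : ℝ) < P := by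
        have h1 : (p : ℝ) * k ≤ P ^ 2 := by exact_mod_cast hc
        have h2 : (0 : ℝ) < k := by exact_mod_cast Nat.pos_of_ne_zero hk0
        nlinarith
      have hsm : ∀ q : ℕ, q.Prime → q ∣ k → (q : ℝ) ≤ P := by
        intro q _ hqk
        have : (q : ℝ) ≤ k := by exact_mod_cast Nat.le_of_dvd (Nat.pos_of_ne_zero hk0) hqk
        linarith
      have hcop : p.Coprime k := by
        rw [hp.coprime_iff_not_dvd]
        intro hdvd
        have := hsm p hp hdvd
        linarith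
      have hx1 : rs x y k = rs y y k := rs_congr fun q hq hqk => h q hq (hsm q hq hqk)
      rw [rs_mul _ _ hcop, rs_mul _ _ hcop, rs_prime _ _ hp, rs_prime _ _ hp, hx1, add_zero]
      have hmem : p ∈ (p * k).primeFactors.filter (fun p : ℕ => P < p) := by
        rw [mem_filter, Nat.mem_primeFactors]
        exact ⟨⟨hp, dvd_mul_right _ _, hm⟩, hpP⟩
      have hs := single_le_sum (f := fun q : ℕ => (2 * |y q| + y q ^ 2) * rs y y (p * k / q))
        (fun q _ => mul_nonneg (by positivity) (rs_self_nonneg _ _)) hmem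
      rw [Nat.mul_div_cancel_left k hp.pos] at hs
      have h3 := rs_self_nonneg y k
      have h4 : -(2 * |y p|) ≤ x p * y p := by
        have h5 : |x p * y p| ≤ 2 * |y p| := by
          rw [abs_mul]
          exact mul_le_mul_of_nonneg_right (hx p) (abs_nonneg _)
        exact (abs_le.1 h5).1
      nlinarith [mul_le_mul_of_nonneg_right h4 h3]
    · push Not at hex
      rw [rs_congr (x := x) (x' := y) fun q hq hqm => h q hq (hex q hq hqm)]
      linarith

end Pool.Agent.U985.FM
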