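import Pool.Agent.U985.FM.Rs
import Pool.Agent.U985.UT.Asym

/-! Smoothed sums over the integers. -/

set_option autoImplicit false

namespace Pool.Agent.U985.FM

open Complex MeasureTheory Filter Topology
open Pool.Agent.TH949.LT (gauss_line norm_exp_sq)
open Pool.Agent.N846.DT
open Pool.Agent.U985.UT (KK KK_pos gauss_int)

theorem expandS {ι : Type} {c Λ : ι → ℝ} [Countable ι] {b : ℝ} {F : ℂ → ℂ}
    (hs : Summable fun l => |c l| * Real.exp (-((1 + b) * Λ l)))
    (hF : ∀ v : ℝ, HasSum (fun l => (c l : ℂ) * cexp (-((1 + ((b : ℂ) + v * I)) * Λ l))) (F (b + v * I)))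
    (y : ℝ) :
    HasSum (fun l => ((√Real.pi * (c l * (Real.exp (-Λ l) * KK (y - Λ l))) : ℝ) : ℂ))
      (∫ v : ℝ, F (b + v * I) * cexp ((b + v * I) * y) * cexp ((b + v * I) ^ 2)) := by
  set G : ι → ℝ → ℂ := fun l v => ((c l : ℂ) * cexp (-((1 + ((b : ℂ) + v * I)) * Λ l))) *
    cexp ((b + v * I) * y) * cexp ((b + v * I) ^ 2) with hG
  have hGn : ∀ l v, ‖G l v‖ = |c l| * Real.exp (-((1 + b) * Λ l)) * (Real.exp (b * y) * Real.exp (b ^ 2 - v ^ 2)) := by
    intro l v
    rw [hG]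
    simp only
    rw [norm_mul, norm_mul, norm_mul, Complex.norm_real, Real.norm_eq_abs, norm_exp_sq,
      Complex.norm_exp, Complex.norm_exp]
    have e1 : (-((1 + ((b : ℂ) + v * I)) * Λ l)).re = -((1 + b) * Λ l) := by simp
    have e2 : (((b : ℂ) + v * I) * y).re = b * y := by simp
    have e3 : ((b : ℂ) + v * I).re ^ 2 - ((b : ℂ) + v * I).im ^ 2 = b ^ 2 - v ^ 2 := by simp
    rw [e1, e2, e3]
    ring
  have hGi : ∀ l, Integrable (G l) := by
    intro l
    have h1 : Integrable fun v : ℝ =>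
        |c l| * Real.exp (-((1 + b) * Λ l)) * (Real.exp (b * y) * Real.exp (b ^ 2 - v ^ 2)) :=
      ((gauss_int b).const_mul _).const_mul _
    refine h1.mono' ?_ (Eventually.of_forall fun v => (hGn l v).le)
    refine Continuous.aestronglyMeasurable ?_
    rw [hG]
    fun_prop
  have h2 : Summable fun l => ∫ v : ℝ, ‖G l v‖ := by
    have : ∀ l, ∫ v : ℝ, ‖G l v‖ =
        |c l| * Real.exp (-((1 + b) * Λ l)) * ∫ v : ℝ, Real.exp (b * y) * Real.exp (b ^ 2 - v ^ 2) := by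
      intro l
      rw [← integral_const_mul]
      congr 1
      ext v
      exact hGn l v
    simp_rw [this]
    exact hs.mul_right _
  have h3 := hasSum_integral_of_summable_integral_norm hGi h2
  have h4 : ∀ v : ℝ, ∑' l, G l v = F (b + v * I) * cexp ((b + v * I) * y) * cexp ((b + v * I) ^ 2) := by
    intro v
    exact (((hF v).mul_right (cexp ((b + v * I) * y))).mul_right (cexp ((b + v * I) ^ 2))).tsum_eq
  simp_rw [h4] at h3
  refine h3.congr_fun fun l => ?_
  have h6 := gauss_line b (y - Λ l)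
  have h7 : ∀ v : ℝ, G l v = (c l : ℂ) * cexp (-(Λ l : ℂ)) *
      cexp (((b : ℂ) + v * I) ^ 2 + (b + v * I) * (y - Λ l : ℝ)) := by
    intro v
    rw [hG]
    simp only
    rw [mul_assoc (c l : ℂ), mul_assoc (c l : ℂ), mul_assoc (c l : ℂ), ← Complex.exp_add, ← Complex.exp_add,
      ← Complex.exp_add]
    congr 2
    push_cast
    ring
  simp_rw [h7]
  rw [integral_const_mul, h6]
  unfold KK
  push_cast
  have e : -((y : ℂ) - Λ l) ^ 2 / 4 = -(((y : ℂ) - Λ l) ^ 2 / 4) := by ring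
  rw [e]
  ring

/-- the smoothed sum of the sequence `c` at `e ^ y` -/
noncomputable def SK (c : ℕ → ℝ) (y : ℝ) : ℝ := ∑' m : ℕ, c m * (Real.exp (-Real.log m) * KK (y - Real.log m))

/-- the sequences considered -/
def Adm (c : ℕ → ℝ) : Prop := c 0 = 0 ∧ ∀ m : ℕ, m ≠ 0 → |c m| ≤ (m : ℝ) ^ 3

theorem kk_bound' (y t : ℝ) : KK (y - t) ≤ Real.exp 16 * Real.exp (4 * y) * Real.exp (-(4 * t)) := by
  unfold KK
  rw [← Real.exp_add, ← Real.exp_add]
  refine Real.exp_le_exp.2 ?_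
  nlinarith [sq_nonneg (y - t + 8)]

theorem exp_neg_log {m : ℕ} (hm : m ≠ 0) (k : ℕ) : Real.exp (-((k : ℝ) * Real.log m)) = 1 / (m : ℝ) ^ k := by
  have h0 : (0 : ℝ) < m := by exact_mod_cast Nat.pos_of_ne_zero hm
  rw [Real.exp_neg, ← Real.log_pow, Real.exp_log (pow_pos h0 k), one_div]

theorem adm_term {c : ℕ → ℝ} (hc : Adm c) (y : ℝ) (m : ℕ) :
    |c m * (Real.exp (-Real.log m) * KK (y - Real.log m))| ≤ Real.exp 16 * Real.exp (4 * y) * (1 / (m : ℝ) ^ 2) := by
  rcases Nat.eq_zero_or_pos m with rfl | hm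
  · rw [hc.1]
    simp
  · have hm0 : m ≠ 0 := hm.ne'
    have h0 : (0 : ℝ) < m := by exact_mod_cast hm
    rw [abs_mul, abs_of_nonneg (mul_nonneg (Real.exp_pos _).le (KK_pos _).le)]
    have h1 := hc.2 m hm0
    have h2 := kk_bound' y (Real.log m)
    have h3 := exp_neg_log hm0 4
    have h4 := exp_neg_log hm0 1
    norm_num at h3 h4
    rw [h3] at h2
    rw [h4]
    have h5 := KK_pos (y - Real.log m)
    calc |c m| * ((m : ℝ)⁻¹ * KK (y - Real.log m)) ≤
          (m : ℝ) ^ 3 * ((m : ℝ)⁻¹ * (Real.exp 16 * Real.exp (4 * y) * ((m : ℝ) ^ 4)⁻¹)) := by gcongr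
      _ = Real.exp 16 * Real.exp (4 * y) * (1 / (m : ℝ) ^ 2) := by field_simp

theorem summ_adm {c : ℕ → ℝ} (hc : Adm c) (y : ℝ) :
    Summable fun m : ℕ => c m * (Real.exp (-Real.log m) * KK (y - Real.log m)) := by
  refine Summable.of_norm_bounded (g := fun m : ℕ => Real.exp 16 * Real.exp (4 * y) * (1 / (m : ℝ) ^ 2)) ?_
    fun m => adm_term hc y m
  exact (Real.summable_one_div_nat_pow.2 (by norm_num)).mul_left _

theorem cpow_eq {m : ℕ} (hm : m ≠ 0) (s : ℂ) : (m : ℂ) ^ (-s) = cexp (-(s * (Real.log m : ℝ))) := by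
  have h0 : (m : ℂ) ≠ 0 := by exact_mod_cast hm
  rw [Complex.cpow_def_of_ne_zero h0]
  congr 1
  rw [← Complex.natCast_log]
  ring

/-- **the contour shift** -/
theorem contour {a B : ℝ} (ha : a < 0) : ∃ A : ℝ, 0 ≤ A ∧ ∀ (c : ℕ → ℝ), Adm c → ∀ (G : ℂ → ℂ) (M : ℝ),
    Differentiable ℂ G → 0 ≤ M →
    (∀ s : ℂ, 4 < s.re → G s = (s - 1) * ∑' m : ℕ, (c m : ℂ) * (m : ℂ) ^ (-s)) →
    (∀ s : ℂ, 1 + a ≤ s.re → s.re ≤ 6 → ‖G s‖ ≤ M * (1 + |s.im|) ^ B) →
    ∀ y : ℝ, |SK c y - 2 * √Real.pi * (G 1).re| ≤ A * M * Real.exp (a * y) := by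
  refine ⟨Real.exp (a ^ 2) * |a|⁻¹ * JK B, by
    have := JK_nonneg B
    positivity, fun c hc G M hG hM hGe hgr y => ?_⟩
  obtain ⟨C2, hC20, hC2⟩ := rpow_exp (|B|)
  -- the strip
  have hC : ∀ w : ℂ, a ≤ w.re → w.re ≤ 4 → ‖G (1 + w) * cexp (w * y)‖ ≤
      (M * C2 * Real.exp ((|a| + 4) * |y|)) * Real.exp |w.im| := by
    intro w hw1 hw2
    rw [norm_mul]
    have h2 := hgr (1 + w) (by simp; linarith) (by simp; linarith)
    have him : (1 + w).im = w.im := by simp
    rw [him] at h2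
    have h3 : ‖cexp (w * y)‖ ≤ Real.exp ((|a| + 4) * |y|) := by
      rw [Complex.norm_exp]
      refine Real.exp_le_exp.2 ?_
      simp only [Complex.mul_re, Complex.ofReal_re, Complex.ofReal_im, mul_zero, sub_zero]
      calc w.re * y ≤ |w.re * y| := le_abs_self _
        _ = |w.re| * |y| := abs_mul _ _
        _ ≤ (|a| + 4) * |y| := by
            refine mul_le_mul_of_nonneg_right ?_ (abs_nonneg y)
            rw [abs_le]
            constructor
            · linarith [neg_abs_le a]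
            · linarith [abs_nonneg a]
    have hone : (1 : ℝ) ≤ 1 + |w.im| := by linarith [abs_nonneg w.im]
    have h4 : ‖G (1 + w)‖ ≤ M * (C2 * Real.exp |w.im|) := by
      refine h2.trans (mul_le_mul_of_nonneg_left ?_ hM)
      exact (Real.rpow_le_rpow_of_exponent_le hone (le_abs_self _)).trans (hC2 _ (abs_nonneg _))
    calc _ ≤ (M * (C2 * Real.exp |w.im|)) * Real.exp ((|a| + 4) * |y|) :=
          mul_le_mul h4 h3 (norm_nonneg _) (by positivity)
      _ = _ := by ring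
  have hHd : Differentiable ℂ fun w : ℂ => G (1 + w) * cexp (w * y) :=
    (hG.comp (by fun_prop)).mul (by fun_prop)
  have hcr := cross hHd ha (by norm_num : (0 : ℝ) < 4) hC
  -- absolute convergence
  have hsum5 : Summable fun m : ℕ => |c m| * Real.exp (-((1 + 4) * Real.log m)) := by
    refine Summable.of_nonneg_of_le (fun m => by positivity) (fun m => ?_)
      (Real.summable_one_div_nat_pow.2 (show 1 < 2 by norm_num))
    rcases Nat.eq_zero_or_pos m with rfl | hm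
    · rw [hc.1]
      simp
    · have h0 : (0 : ℝ) < m := by exact_mod_cast hm
      have h3 := exp_neg_log hm.ne' 5
      norm_num at h3
      have e : -((1 + 4) * Real.log m) = -(5 * Real.log m) := by ring
      rw [e, h3]
      calc |c m| * ((m : ℝ) ^ 5)⁻¹ ≤ (m : ℝ) ^ 3 * ((m : ℝ) ^ 5)⁻¹ :=
            mul_le_mul_of_nonneg_right (hc.2 m hm.ne') (by positivity)
        _ = 1 / (m : ℝ) ^ 2 := by field_simp
  set F : ℂ → ℂ := fun w => ∑' m : ℕ, (c m : ℂ) * cexp (-((1 + w) * Real.log m)) with hF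
  have hFs : ∀ v : ℝ, HasSum (fun m : ℕ => (c m : ℂ) * cexp (-((1 + (((4 : ℝ) : ℂ) + v * I)) * Real.log m)))
      (F (((4 : ℝ) : ℂ) + v * I)) := by
    intro v
    refine Summable.hasSum (Summable.of_norm (hsum5.congr fun m => ?_))
    rw [norm_mul, Complex.norm_real, Real.norm_eq_abs, Complex.norm_exp]
    congr 2
    rw [Complex.neg_re, Complex.re_mul_ofReal]
    simp
  have hex := expandS (c := c) (Λ := fun m : ℕ => Real.log m) (b := 4) (F := F) hsum5 hFs y
  have hFG : ∀ v : ℝ, G (1 + (((4 : ℝ) : ℂ) + v * I)) = (((4 : ℝ) : ℂ) + v * I) * F (((4 : ℝ) : ℂ) + v * I) := by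
    intro v
    rw [hGe _ (by simp), add_sub_cancel_left]
    congr 1
    rw [hF]
    refine tsum_congr fun m => ?_
    rcases Nat.eq_zero_or_pos m with rfl | hm
    · simp [hc.1]
    · rw [cpow_eq hm.ne']
  have hIb : (∫ v : ℝ, (G (1 + ((4 : ℝ) + v * I)) * cexp (((4 : ℝ) + v * I) * y)) *
      (cexp (((4 : ℝ) + v * I) ^ 2) / ((4 : ℝ) + v * I))) = ((√Real.pi * SK c y : ℝ) : ℂ) := by
    have h1 : (∫ v : ℝ, (G (1 + ((4 : ℝ) + v * I)) * cexp (((4 : ℝ) + v * I) * y)) *
        (cexp (((4 : ℝ) + v * I) ^ 2) / ((4 : ℝ) + v * I))) =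
        ∫ v : ℝ, F (((4 : ℝ) : ℂ) + v * I) * cexp ((((4 : ℝ) : ℂ) + v * I) * y) *
          cexp ((((4 : ℝ) : ℂ) + v * I) ^ 2) := by
      congr 1
      ext v
      have hne : ((4 : ℝ) : ℂ) + v * I ≠ 0 := by
        intro h0
        have := congrArg Complex.re h0
        simp at this
      rw [hFG]
      field_simp
    rw [h1, ← hex.tsum_eq, ← Complex.ofReal_tsum]
    congr 1
    rw [tsum_mul_left]
    rfl
  rw [hIb] at hcr
  simp only [add_zero, zero_mul, Complex.exp_zero, mul_one] at hcr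
  set Ia : ℂ := ∫ v : ℝ, (G (1 + ((a : ℂ) + v * I)) * cexp (((a : ℂ) + v * I) * y)) *
      (cexp (((a : ℂ) + v * I) ^ 2) / ((a : ℂ) + v * I)) with hIa
  have ha' : 0 < |a| := abs_pos.2 ha.ne
  have hIan : ‖Ia‖ ≤ (Real.exp (a ^ 2) * |a|⁻¹ * JK B) * M * Real.exp (a * y) := by
    have h1 : ∀ v : ℝ, ‖(G (1 + ((a : ℂ) + v * I)) * cexp (((a : ℂ) + v * I) * y)) *
        (cexp (((a : ℂ) + v * I) ^ 2) / ((a : ℂ) + v * I))‖ ≤
        (Real.exp (a ^ 2) * |a|⁻¹ * M * Real.exp (a * y)) * ((1 + |v|) ^ B * Real.exp (-v ^ 2)) := by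
      intro v
      rw [norm_mul, norm_mul, norm_div, norm_exp_sq, Complex.norm_exp]
      have e4 : (((a : ℂ) + v * I) * y).re = a * y := by simp
      have e5 : ((a : ℂ) + v * I).re ^ 2 - ((a : ℂ) + v * I).im ^ 2 = a ^ 2 - v ^ 2 := by simp
      rw [e4, e5]
      have h2 := hgr (1 + ((a : ℂ) + v * I)) (by simp) (by simp; linarith)
      have him : (1 + ((a : ℂ) + v * I)).im = v := by simp
      rw [him] at h2
      have h3 : |a| ≤ ‖(a : ℂ) + v * I‖ := by
        have := Complex.abs_re_le_norm ((a : ℂ) + v * I)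
        simpa using this
      have h7 : Real.exp (a ^ 2 - v ^ 2) = Real.exp (a ^ 2) * Real.exp (-v ^ 2) := by
        rw [← Real.exp_add, sub_eq_add_neg]
      rw [h7]
      have h8 : Real.exp (a ^ 2) * Real.exp (-v ^ 2) / ‖(a : ℂ) + v * I‖ ≤
          Real.exp (a ^ 2) * Real.exp (-v ^ 2) * |a|⁻¹ := by
        rw [div_eq_mul_inv]
        refine mul_le_mul_of_nonneg_left ?_ (by positivity)
        exact inv_anti₀ ha' h3
      calc _ ≤ (M * (1 + |v|) ^ B * Real.exp (a * y)) * (Real.exp (a ^ 2) * Real.exp (-v ^ 2) * |a|⁻¹) := by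
            refine mul_le_mul (mul_le_mul_of_nonneg_right h2 (Real.exp_pos _).le) h8 (by positivity) (by positivity)
        _ = _ := by ring
    refine (norm_integral_le_of_norm_le ((JK_int B).const_mul _) (Eventually.of_forall h1)).trans (le_of_eq ?_)
    rw [integral_const_mul]
    unfold JK
    ring
  have hpi : 0 < √Real.pi := Real.sqrt_pos.2 Real.pi_pos
  have hre := congrArg Complex.re hcr
  rw [Complex.sub_re, Complex.ofReal_re] at hre
  have h2 : (2 * (Real.pi : ℂ) * G 1).re = 2 * Real.pi * (G 1).re := by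
    have : (2 * (Real.pi : ℂ) * G 1) = ((2 * Real.pi : ℝ) : ℂ) * G 1 := by push_cast; ring
    rw [this, Complex.re_ofReal_mul]
  rw [h2] at hre
  have h3 : √Real.pi * (SK c y - 2 * √Real.pi * (G 1).re) = Ia.re := by
    have h4 : √Real.pi * √Real.pi = Real.pi := Real.mul_self_sqrt Real.pi_pos.le
    linear_combination hre - 2 * (G 1).re * h4
  have h4 : √Real.pi * |SK c y - 2 * √Real.pi * (G 1).re| = |Ia.re| := by
    rw [← h3, abs_mul, abs_of_pos hpi]
  have h5 : 1 ≤ √Real.pi := by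
    rw [Real.one_le_sqrt]
    linarith [Real.pi_gt_three]
  have h6 := abs_nonneg (SK c y - 2 * √Real.pi * (G 1).re)
  have h7 := Complex.abs_re_le_norm Ia
  calc |SK c y - 2 * √Real.pi * (G 1).re| ≤ √Real.pi * |SK c y - 2 * √Real.pi * (G 1).re| := by
        nlinarith
    _ ≤ _ := by rw [h4]; exact h7.trans hIan

end Pool.Agent.U985.FM
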